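import Pool.Agent.Helper34.BIC.Unif

/-!
# Located matroids: nullity calculus

`Located M L`: every element `e` is located at the nodes `L e`; removing the star of a node
makes all its elements independent of the rest, and the elements located in a finite set `U` of
nodes have rank at most `|U|`.
-/

set_option linter.unusedSectionVars false

open Set

namespace Book

open BIC

variable {α V : Type*}

/-- Locations. -/
structure Located (M : Matroid α) (L : α → Set V) : Prop where
  st : ∀ v e, e ∈ M.E → v ∈ L e → e ∉ M.closure {f | f ∈ M.E ∧ v ∉ L f}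
  ru : ∀ U : Set V, U.Finite → rk M {e | e ∈ M.E ∧ L e ⊆ U} ≤ U.ncard

/-- Nullity. -/
noncomputable def nul (M : Matroid α) (X : Set α) : ℕ := X.ncard - rk M X

section nul

variable {M : Matroid α} [M.Finite]

lemma fin {X : Set α} (hX : X ⊆ M.E) : X.Finite := M.ground_finite.subset hX

lemma nul_add {X : Set α} (hX : X ⊆ M.E) : nul M X + rk M X = X.ncard := by
  have := rk_le_ncard M (fin hX)
  unfold nul
  omega

lemma rk_insert_of_notMem {X : Set α} {e : α} (he : e ∈ M.E) (h : e ∉ M.closure X) :
    rk M (insert e X) = rk M X + 1 := by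
  have := M.eRk_insert_eq_add_one (e := e) (X := X) ⟨he, h⟩
  rw [← cast_rk, ← cast_rk] at this
  exact_mod_cast this

omit [M.Finite] in
lemma rk_insert_of_mem {X : Set α} {e : α} (h : e ∈ M.closure X) :
    rk M (insert e X) = rk M X := by
  rw [← rk_closure, Matroid.closure_insert_eq_of_mem_closure h, rk_closure]

lemma nul_insert_of_notMem {X : Set α} {e : α} (hX : X ⊆ M.E) (he : e ∈ M.E)
    (h : e ∉ M.closure X) : nul M (insert e X) = nul M X := by
  have h1 := nul_add hX
  have h2 := nul_add (M := M) (insert_subset he hX)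
  have h3 := rk_insert_of_notMem he h
  have h4 : e ∉ X := fun h5 => h (M.mem_closure_of_mem h5 hX)
  rw [ncard_insert_of_notMem h4 (fin hX)] at h2
  omega

lemma nul_insert_le {X : Set α} {e : α} (hX : X ⊆ M.E) (he : e ∈ M.E) :
    nul M (insert e X) ≤ nul M X + 1 := by
  have h1 := nul_add hX
  have h2 := nul_add (M := M) (insert_subset he hX)
  have h3 : rk M X ≤ rk M (insert e X) := rk_mono M (subset_insert _ _)
  have h4 := ncard_insert_le e X
  omega

lemma nul_mono {X Y : Set α} (h : X ⊆ Y) (hY : Y ⊆ M.E) : nul M X ≤ nul M Y := by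
  have h1 := nul_add (h.trans hY)
  have h2 := nul_add hY
  have h3 : rk M Y ≤ rk M X + (Y \ X).ncard := by
    have := rk_union_le M (X := X) (Y := Y \ X) (fin (sdiff_subset.trans hY))
    rwa [union_sdiff_cancel h] at this
  have h4 := ncard_sdiff_add_ncard_of_subset h (fin hY)
  omega

lemma nul_eq_zero {X : Set α} (hX : X ⊆ M.E) : nul M X = 0 ↔ M.Indep X := by
  constructor
  · intro h
    have h1 := nul_add hX
    rw [h, zero_add] at h1
    rw [Matroid.indep_iff_eRk_eq_encard_of_finite (fin hX), ← cast_rk, h1,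
      (fin hX).cast_ncard_eq]
  · intro h
    have h1 := nul_add hX
    have h2 := rk_indep h
    omega

lemma nul_empty : nul M ∅ = 0 := (nul_eq_zero (empty_subset _)).2 M.empty_indep

/-- Exchange: `Y + t = S + w`, `t` spanned by `Y`, `w` spanned by `S`. -/
lemma nul_exch {Y S : Set α} {t w : α} (hY : Y ⊆ M.E) (hS : S ⊆ M.E) (ht : t ∉ Y) (hw : w ∉ S)
    (h : insert t Y = insert w S) (htY : t ∈ M.closure Y) (hwS : w ∈ M.closure S) :
    nul M S = nul M Y := by
  have h1 := nul_add hY
  have h2 := nul_add hS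
  have h3 := rk_insert_of_mem htY
  have h4 := rk_insert_of_mem hwS
  have h5 := ncard_insert_of_notMem ht (fin hY)
  have h6 := ncard_insert_of_notMem hw (fin hS)
  rw [h] at h3 h5
  omega

end nul

section located

variable {M : Matroid α} [M.Finite] {L : α → Set V}

lemma Located.notMem (h : Located M L) {A : Set α} {e : α} {v : V} (hA : A ⊆ M.E)
    (he : e ∈ M.E) (hv : v ∈ L e) (hf : ∀ x ∈ A, v ∉ L x) : e ∉ M.closure A := by
  intro h1
  have hsub : A ⊆ {f | f ∈ M.E ∧ v ∉ L f} := fun x hx => ⟨hA hx, hf x hx⟩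
  exact h.st v e he hv (M.closure_subset_closure hsub h1)

lemma Located.nul_fresh (h : Located M L) {A : Set α} {e : α} {v : V} (hA : A ⊆ M.E)
    (he : e ∈ M.E) (hv : v ∈ L e) (hf : ∀ x ∈ A, v ∉ L x) : nul M (insert e A) = nul M A :=
  nul_insert_of_notMem hA he (h.notMem hA he hv hf)

lemma Located.mem_closure (h : Located M L) {B : Set α} {U : Set V} (hB : B ⊆ M.E)
    (hU : U.Finite) (hBU : ∀ x ∈ B, L x ⊆ U) (hn : nul M B = 0) (hc : U.ncard ≤ B.ncard)
    {e : α} (he : e ∈ M.E) (heU : L e ⊆ U) : e ∈ M.closure B := by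
  by_contra h1
  have h2 := rk_insert_of_notMem he h1
  have h3 := nul_add hB
  have h4 : rk M (insert e B) ≤ rk M {e | e ∈ M.E ∧ L e ⊆ U} := by
    refine rk_mono M ?_
    intro x hx
    rcases hx with rfl | hx
    · exact ⟨he, heU⟩
    · exact ⟨hB hx, hBU x hx⟩
  have h5 := h.ru U hU
  omega

end located

end Book
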