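import Pool.Agent.Helper45.Book.Rows

/-!
# Connectors

A connector is an element with one leg on every row of a finite set `K` (at least two rows), all
in the same window `b`. Together with the right tails of its rows it is a circuit.
-/

set_option linter.unusedSectionVars false

open Set

namespace Book

open BIC

variable {α R : Type*} {M : Matroid α} [M.Finite] {L : α → Set (R × ℕ)} {n : ℕ} {rows : Set R}
  {c : R → ℕ → α}

namespace Rowed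

variable (h : Rowed M L n rows c)
include h

lemma tails_eq (K : Finset R) (b : ℕ) : (⋃ ρ ∈ K, c ρ '' Ico b (n + 1)) =
    (fun v : R × ℕ => c v.1 v.2) '' ((K ×ˢ Finset.Ico b (n + 1) : Finset (R × ℕ)) : Set (R × ℕ)) := by
  ext x
  simp only [mem_iUnion, mem_image, Finset.coe_product, mem_prod, Finset.mem_coe,
    Finset.mem_Ico, mem_Ico, Prod.exists]
  constructor
  · rintro ⟨ρ, hρ, b', hb', rfl⟩
    exact ⟨ρ, b', ⟨hρ, hb'⟩, rfl⟩
  · rintro ⟨ρ, b', ⟨hρ, hb'⟩, rfl⟩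
    exact ⟨ρ, hρ, b', hb', rfl⟩

lemma tails_card {K : Finset R} (hK : ∀ ρ ∈ K, ρ ∈ rows) {b : ℕ} (hb : 1 ≤ b) :
    (⋃ ρ ∈ K, c ρ '' Ico b (n + 1)).ncard = (K ×ˢ Finset.Ico b (n + 1)).card := by
  rw [h.tails_eq, InjOn.ncard_image, ncard_coe_finset]
  rintro ⟨ρ, a⟩ h1 ⟨κ, a'⟩ h2 h3
  simp only [Finset.coe_product, mem_prod, Finset.mem_coe, Finset.mem_Ico] at h1 h2 h3
  obtain ⟨h4, h5⟩ := h.c_inj (hK _ h1.1) (hK _ h2.1) (by omega) (by omega) (by omega) (by omega) h3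
  rw [h4, h5]

/-- the nodes of the right tails -/
def Un (n : ℕ) (K : Finset R) (b : ℕ) : Set (R × ℕ) :=
  ((K ×ˢ Finset.Ico b (n + 1) : Finset (R × ℕ)) : Set (R × ℕ))

omit h in
lemma mem_Un {K : Finset R} {b : ℕ} {v : R × ℕ} :
    v ∈ Un n K b ↔ v.1 ∈ K ∧ b ≤ v.2 ∧ v.2 < n + 1 := by
  simp only [Un, Finset.coe_product, mem_prod, Finset.mem_coe, Finset.mem_Ico]

lemma legs_tail {K : Finset R} (hK : ∀ ρ ∈ K, ρ ∈ rows) {b : ℕ} :
    ∀ x ∈ (⋃ ρ ∈ K, c ρ '' Ico b (n + 1)), L x ⊆ Un n K b := by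
  intro x hx v hv
  rw [mem_iUnion₂] at hx
  obtain ⟨ρ, hρ, b', hb', rfl⟩ := hx
  rw [mem_Ico] at hb'
  rw [h.cL ρ (hK ρ hρ) b' (by omega)] at hv
  obtain ⟨h1, h2⟩ := hv
  rw [mem_Un, h1]
  exact ⟨hρ, by omega, by omega⟩

lemma conn_mem [DecidableEq R] {K : Finset R} (hK : ∀ ρ ∈ K, ρ ∈ rows) {b : ℕ} (hb : 1 ≤ b)
    (hbn : b ≤ n) {e : α} (he : e ∈ M.E) (hL : ∀ v ∈ L e, v.1 ∈ K ∧ v.2 = b) :
    e ∈ M.closure (⋃ ρ ∈ K, c ρ '' Ico b (n + 1)) := by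
  refine h.loc.mem_closure (U := Un n K b) (iUnion₂_subset fun ρ hρ => h.row_sub (hK ρ hρ) le_rfl)
    (Finset.finite_toSet _) (h.legs_tail hK) (h.tails_nul hK hb) ?_ he ?_
  · rw [h.tails_card hK hb, Un, ncard_coe_finset]
  · intro v hv
    rw [mem_Un]
    have := hL v hv
    exact ⟨this.1, by omega, by omega⟩

lemma conn_notMem {κ ρ : R} (hκρ : κ ≠ ρ) {b : ℕ} {e : α} (h1 : (ρ, b) ∈ L e)
    (h2 : (κ, b) ∈ L e) {σ : R} (hσ : σ ∈ rows) {b' : ℕ} (hb' : b' ≤ n) : e ≠ c σ b' := by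
  rintro rfl
  rw [h.cL σ hσ b' hb'] at h1 h2
  exact hκρ (h2.1.trans h1.1.symm)

lemma conn_last [DecidableEq R] {K : Finset R} (hK : ∀ ρ ∈ K, ρ ∈ rows) {b : ℕ} (hb : 1 ≤ b)
    (hbn : b ≤ n) {e : α} (he : e ∈ M.E) (hL : ∀ v, v ∈ L e ↔ v.1 ∈ K ∧ v.2 = b) {ρ κ : R}
    (hρ : ρ ∈ K) (hκ : κ ∈ K) (hκρ : κ ≠ ρ) :
    c ρ n ∈ M.closure (insert e (⋃ σ ∈ K.erase ρ, c σ '' Ico b (n + 1)) ∪ c ρ '' Ico b n) := by
  have hK' : ∀ σ ∈ K.erase ρ, σ ∈ rows := fun σ hσ => hK σ (Finset.mem_of_mem_erase hσ)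
  have hsub1 : (⋃ σ ∈ K.erase ρ, c σ '' Ico b (n + 1)) ⊆ M.E :=
    iUnion₂_subset fun σ hσ => h.row_sub (hK' σ hσ) le_rfl
  have hsub2 : insert e (⋃ σ ∈ K.erase ρ, c σ '' Ico b (n + 1)) ⊆ M.E :=
    insert_subset he hsub1
  have hsub3 : insert e (⋃ σ ∈ K.erase ρ, c σ '' Ico b (n + 1)) ∪ c ρ '' Ico b n ⊆ M.E :=
    union_subset hsub2 (h.row_sub (hK ρ hρ) (by omega))
  have hρb : (ρ, b) ∈ L e := (hL _).2 ⟨hρ, rfl⟩
  have hκb : (κ, b) ∈ L e := (hL _).2 ⟨hκ, rfl⟩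
  have hnul : nul M (insert e (⋃ σ ∈ K.erase ρ, c σ '' Ico b (n + 1)) ∪ c ρ '' Ico b n) = 0 := by
    rw [h.rowF (hK ρ hρ) hsub2 n le_rfl, h.loc.nul_fresh hsub1 he hρb, h.tails_nul hK' hb]
    · intro x hx hx2
      have := h.legs_tail hK' x hx hx2
      rw [mem_Un] at this
      exact Finset.notMem_erase _ _ this.1
    · rintro x (rfl | hx) b' h1 h2 h3
      · have := (hL _).1 h3
        simp only at this
        omega
      · have := h.legs_tail hK' x hx h3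
        rw [mem_Un] at this
        exact Finset.notMem_erase _ _ this.1
  have hnm1 : e ∉ (⋃ σ ∈ K, c σ '' Ico b (n + 1)) := by
    rw [mem_iUnion₂]
    rintro ⟨σ, hσ, b', hb', h1⟩
    rw [mem_Ico] at hb'
    exact h.conn_notMem hκρ hρb hκb (hK σ hσ) (by omega) h1.symm
  have hnm2 : c ρ n ∉ insert e (⋃ σ ∈ K.erase ρ, c σ '' Ico b (n + 1)) ∪ c ρ '' Ico b n := by
    rintro ((h1 | h1) | ⟨b', hb', h1⟩)
    · exact h.conn_notMem hκρ hρb hκb (hK ρ hρ) le_rfl h1.symm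
    · rw [mem_iUnion₂] at h1
      obtain ⟨σ, hσ, b', hb', h1⟩ := h1
      rw [mem_Ico] at hb'
      have := (h.c_inj (hK' σ hσ) (hK ρ hρ) (by omega) le_rfl (by omega) (by omega) h1).1
      exact Finset.notMem_erase ρ K (this ▸ hσ)
    · rw [mem_Ico] at hb'
      have := (h.c_inj (hK ρ hρ) (hK ρ hρ) (by omega) le_rfl (by omega) (by omega) h1).2
      omega
  have heq : insert (c ρ n) (insert e (⋃ σ ∈ K.erase ρ, c σ '' Ico b (n + 1)) ∪ c ρ '' Ico b n) =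
      insert e (⋃ σ ∈ K, c σ '' Ico b (n + 1)) := by
    have h1 : (⋃ σ ∈ K, c σ '' Ico b (n + 1)) =
        (⋃ σ ∈ K.erase ρ, c σ '' Ico b (n + 1)) ∪ c ρ '' Ico b (n + 1) := by
      conv_lhs => rw [← Finset.insert_erase hρ]
      rw [Finset.set_biUnion_insert, union_comm]
    have h2 : Ico b (n + 1) = insert n (Ico b n) := by
      ext x; simp only [mem_Ico, mem_insert_iff]; omega
    rw [h1, h2, image_insert_eq]
    ext x
    simp only [mem_insert_iff, mem_union]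
    tauto
  refine h.loc.mem_closure (U := Un n K b) hsub3 (Finset.finite_toSet _) ?_ hnul ?_
    (h.cE ρ (hK ρ hρ) n le_rfl) ?_
  · rintro x ((rfl | hx) | ⟨b', hb', rfl⟩)
    · intro v hv
      rw [mem_Un]
      have := (hL v).1 hv
      exact ⟨this.1, by omega, by omega⟩
    · intro v hv
      have := h.legs_tail hK' x hx hv
      rw [mem_Un] at this ⊢
      exact ⟨Finset.mem_of_mem_erase this.1, this.2⟩
    · rw [mem_Ico] at hb'
      intro v hv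
      rw [h.cL ρ (hK ρ hρ) b' (by omega)] at hv
      obtain ⟨h1, h2⟩ := hv
      rw [mem_Un, h1]
      exact ⟨hρ, by omega, by omega⟩
  · have h1 := ncard_insert_of_notMem hnm2 (fin hsub3)
    have h2 := ncard_insert_of_notMem hnm1
      (fin (iUnion₂_subset fun σ hσ => h.row_sub (hK σ hσ) le_rfl : _ ⊆ M.E))
    rw [heq, h2, h.tails_card hK hb] at h1
    rw [Un, ncard_coe_finset]
    omega
  · intro v hv
    rw [h.cL ρ (hK ρ hρ) n le_rfl] at hv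
    obtain ⟨h1, h2⟩ := hv
    rw [mem_Un, h1]
    exact ⟨hρ, by omega, by omega⟩

end Rowed

end Book
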