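import Pool.Agent.Helper45.Book.Stack

/-!
# The generic book theorem

Two pages of depth `2 k` and one row, joined by sufficiently many gates which are pairwise
non-parallel as seen from both pages, have a `U_{k,2k}`-minor.
-/

set_option linter.unusedSectionVars false

open Set
open scoped Matroid

namespace Book

open BIC

variable {α : Type*}

section start

variable {R : Type*} {M : Matroid α} [M.Finite] {L : α → Set (R × ℕ)} {n : ℕ} {rows : Set R}
  {c : R → ℕ → α}

lemma Rowed.c_inj0 (h : Rowed M L n rows c) (hn : 2 ≤ n) {ρ κ : R} (hρ : ρ ∈ rows) (hκ : κ ∈ rows)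
    {a b : ℕ} (ha : a ≤ n) (hb : b ≤ n) (he : c ρ a = c κ b) : ρ = κ ∧ a = b := by
  have h1 := h.cL ρ hρ a ha
  have h2 := h.cL κ hκ b hb
  rw [he, h2] at h1
  have key : ∀ x, ((κ, x) ∈ cLeg n κ b ↔ (κ, x) ∈ cLeg n ρ a) := fun x => by rw [h1]
  have key2 : ∀ x, ((ρ, x) ∈ cLeg n κ b ↔ (ρ, x) ∈ cLeg n ρ a) := fun x => by rw [h1]
  simp only [cLeg, mem_ofPred_eq, true_and] at key key2
  have hρκ : ρ = κ := by
    by_contra h3
    have h4 := (key b)
    have h5 := (key (b + 1))
    have h6 : ¬ κ = ρ := fun h => h3 h.symm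
    simp only [h6, false_and, iff_false, not_or, not_and] at h4 h5
    have h7 := h4.1 trivial
    have h8 := h5.2 trivial
    omega
  subst hρκ
  simp only [true_and] at key
  refine ⟨rfl, ?_⟩
  have k1 := key a
  have k2 := key (a + 1)
  have k3 := key b
  have k4 := key (b + 1)
  omega

/-- The wires on the grounded rows are loops. -/
lemma Rowed.ground (h : Rowed M L n rows c) (hn : 2 ≤ n) {ρ : R} (hρ : ρ ∈ rows) :
    c ρ n ∈ M.closure (c ρ '' Ico 0 n) := by
  classical
  have hB : c ρ '' Ico 0 n ⊆ M.E := h.row_sub hρ (by omega)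
  have h1 : nul M (c ρ '' Ico 0 n) = 0 := by
    have := h.rowF hρ (A := ∅) (empty_subset _) (a := 0) n le_rfl (by simp)
    rw [empty_union] at this
    rw [this, nul_empty]
  refine h.loc.mem_closure (U := Rowed.Un n {ρ} 1) hB (Finset.finite_toSet _) ?_ h1 ?_
    (h.cE ρ hρ n le_rfl) ?_
  · rintro x ⟨b, hb, rfl⟩ v hv
    rw [mem_Ico] at hb
    rw [h.cL ρ hρ b (by omega)] at hv
    obtain ⟨h2, h3⟩ := hv
    rw [Rowed.mem_Un, h2]
    exact ⟨by simp, by omega, by omega⟩
  · rw [Rowed.Un, ncard_coe_finset, Finset.card_product, Finset.card_singleton, Nat.card_Ico,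
      InjOn.ncard_image]
    · rw [← Finset.coe_Ico, ncard_coe_finset, Nat.card_Ico]
      omega
    · intro a ha b hb hab
      rw [mem_Ico] at ha hb
      exact (h.c_inj0 hn hρ hρ (by omega) (by omega) hab).2
  · intro v hv
    rw [h.cL ρ hρ n le_rfl] at hv
    obtain ⟨h2, h3⟩ := hv
    rw [Rowed.mem_Un, h2]
    exact ⟨by simp, by omega, by omega⟩

lemma Rowed.rows_nul [DecidableEq R] (h : Rowed M L n rows c) (s : R → ℕ) {K : Finset R}
    (hK : ∀ ρ ∈ K, ρ ∈ rows) : nul M (⋃ ρ ∈ K, c ρ '' Ico (s ρ) n) = 0 := by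
  induction K using Finset.induction_on with
  | empty => simpa using nul_empty
  | insert ρ K hρ ih =>
    have e : (⋃ κ ∈ insert ρ K, c κ '' Ico (s κ) n) =
        (⋃ κ ∈ K, c κ '' Ico (s κ) n) ∪ c ρ '' Ico (s ρ) n := by
      rw [Finset.set_biUnion_insert, union_comm]
    rw [e, h.rowF (hK ρ (Finset.mem_insert_self _ _)) ?_ n le_rfl ?_]
    · exact ih fun κ hκ => hK κ (Finset.mem_insert_of_mem hκ)
    · exact iUnion₂_subset fun κ hκ => h.row_sub (hK κ (Finset.mem_insert_of_mem hκ)) (by omega)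
    · intro x hx b' h1 h2
      rw [mem_iUnion₂] at hx
      obtain ⟨κ, hκ, b'', hb'', rfl⟩ := hx
      rw [mem_Ico] at hb''
      rw [h.cL κ (hK κ (Finset.mem_insert_of_mem hκ)) b'' (by omega)]
      rintro ⟨h3, _⟩
      simp only at h3
      exact hρ (h3 ▸ hκ)

end start

variable {M : Matroid α} [M.Finite] {L : α → Set ((ℕ × ℕ) × ℕ)} {n m : ℕ} {c t : ℕ × ℕ → ℕ → α}
  {z : ℕ → α}

lemma BookSys.start (h : BookSys M L n m c t z) (hn : 2 < n) : Inv M L n m c 2 1 2 0 1 := by
  classical
  set G : Set α := (fun i => c (1, i) 0) '' {i | i < m} with hG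
  have hr : ∀ i < m, ((1, i) : ℕ × ℕ) ∈ ((BR m : Finset (ℕ × ℕ)) : Set (ℕ × ℕ)) := by
    intro i hi
    rw [mem_BR]
    exact Or.inr ⟨Or.inl rfl, hi⟩
  have hGE : G ⊆ M.E := by
    rintro _ ⟨i, hi, rfl⟩
    exact h.row.cE _ (hr i hi) 0 (by omega)
  have hGL : ∀ e ∈ G, ∀ v ∈ L e, v.2 ≤ 1 := by
    rintro _ ⟨i, hi, rfl⟩ v hv
    rw [h.row.cL _ (hr i hi) 0 (by omega)] at hv
    obtain ⟨_, h1⟩ := hv
    omega
  set f : ℕ → ℕ × ℕ := fun i => (1, i) with hf
  set S : Finset ℕ → Set α := fun J => G ∪ TT c n (BR m : Finset (ℕ × ℕ)) 1 ∪ Om c n f J with hS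
  have hSE : ∀ J ⊆ Finset.range m, S J ⊆ M.E := by
    rintro J hJ e ((he | he) | he)
    · exact hGE he
    · obtain ⟨ρ, hρ, b, _, hb, rfl⟩ := mem_TT.1 he
      exact h.row.cE ρ hρ b (by omega)
    · obtain ⟨j, hj, rfl⟩ := mem_Om.1 he
      exact h.row.cE _ (hr j (Finset.mem_range.1 (hJ hj))) n le_rfl
  have hst : St M L n (BR m : Finset (ℕ × ℕ)) c 1 (Finset.range m) f (fun J => nul M (S J)) := by
    refine ⟨le_rfl, by omega, ?_, ?_, G, hGE, hGL, fun J _ => rfl⟩
    · intro i _ k _ hik
      simpa [hf] using hik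
    · intro j hj
      exact hr j (Finset.mem_range.1 hj)
  -- nullities
  have h0 : nul M (S ∅) = 0 := by
    have e : S ∅ = ⋃ ρ ∈ BR m, c ρ '' Ico (if ρ.1 = 1 then 0 else 1) n := by
      ext x
      simp only [hS, hG, mem_union, mem_image, mem_ofPred_eq, mem_TT, mem_Om, mem_iUnion₂,
        Finset.notMem_empty, false_and, exists_false, or_false, mem_Ico]
      constructor
      · rintro (⟨i, hi, rfl⟩ | ⟨ρ, hρ, b, h1, h2, rfl⟩)
        · exact ⟨(1, i), hr i hi, 0, ⟨by simp, by omega⟩, rfl⟩
        · refine ⟨ρ, hρ, b, ⟨?_, h2⟩, rfl⟩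
          split_ifs <;> omega
      · rintro ⟨ρ, hρ, b, ⟨h1, h2⟩, rfl⟩
        by_cases hb : b = 0
        · left
          subst hb
          have h3 : ρ.1 = 1 := by
            by_contra h3
            rw [if_neg h3] at h1
            omega
          have h4 := mem_BR.1 hρ
          refine ⟨ρ.2, ?_, ?_⟩
          · rcases h4 with h4 | h4
            · rw [h4] at h3
              simp at h3
            · exact h4.2
          · rw [← h3]
        · exact Or.inr ⟨ρ, hρ, b, by omega, h2, rfl⟩
    rw [e]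
    exact h.row.rows_nul _ (fun ρ hρ => hρ)
  have hstep : ∀ J ⊆ Finset.range m, ∀ j < m, j ∉ J → nul M (S (insert j J)) = nul M (S J) + 1 := by
    intro J hJ j hj hjJ
    have hOm : Om c n f (insert j J) = insert (c (f j) n) (Om c n f J) := by
      simp only [Om, Finset.coe_insert, image_insert_eq]
    have e : S (insert j J) = insert (c (f j) n) (S J) := by
      simp only [hS]
      rw [hOm, union_insert]
    rw [e]
    refine nul_insert_of_mem (hSE J hJ) (h.row.cE _ (hr j hj) n le_rfl) ?_ ?_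
    · refine M.closure_subset_closure ?_ (h.row.ground (by omega) (hr j hj))
      rintro _ ⟨b, hb, rfl⟩
      rw [mem_Ico] at hb
      by_cases hb0 : b = 0
      · subst hb0
        exact Or.inl (Or.inl ⟨j, hj, rfl⟩)
      · exact Or.inl (Or.inr (mem_TT.2 ⟨(1, j), hr j hj, b, by omega, by omega, rfl⟩))
    · rintro ((⟨i, hi, h2⟩ | h2) | h2)
      · have := (h.row.c_inj0 (by omega) (hr i hi) (hr j hj) (by omega) le_rfl h2).2
        omega
      · obtain ⟨ρ, hρ, b, _, hb, h3⟩ := mem_TT.1 h2
        have := (h.row.c_inj0 (by omega) (hr j hj) hρ le_rfl (by omega) h3).2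
        omega
      · obtain ⟨i, hi, h3⟩ := mem_Om.1 h2
        have h4 := (h.row.c_inj0 (by omega) (hr j hj) (hr i (Finset.mem_range.1 (hJ hi))) le_rfl
          le_rfl h3).1
        simp only [Prod.mk.injEq, true_and] at h4
        exact hjJ (h4 ▸ hi)
  have hm : ∀ u ≤ m, nul M (S (Finset.range u)) = u := by
    intro u
    induction u with
    | zero => intro _; rw [Finset.range_zero]; exact h0
    | succ u ih =>
      intro hu
      rw [Finset.range_add_one, hstep _ ?_ u (by omega) (by simp), ih (by omega)]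
      intro x hx
      rw [Finset.mem_range] at hx ⊢
      omega
  have hb := hst.birth h.row (by omega) (w := m) (x := (0, 0)) (by simp)
    (by rw [mem_BR]; exact Or.inl rfl) (by
      intro j hj
      simp [hf])
  have hins : insert m (Finset.range m) = Finset.range (m + 1) := by
    rw [Finset.range_add_one]
  refine ⟨fun J => nul M (S (J.erase m)), ?_, ?_, ?_, ?_⟩
  · rw [hins] at hb
    refine hb.congr ?_ (fun _ _ => rfl)
    intro j hj
    rw [Finset.mem_range] at hj
    by_cases hjm : j = m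
    · subst hjm
      rw [Function.update_self, f1, if_pos rfl]
    · rw [Function.update_of_ne hjm, f1, if_neg hjm, if_neg (by omega)]
      rfl
  · intro J hJ hc
    have : J = ∅ := Finset.card_eq_zero.1 (by omega)
    subst this
    simp only
    rw [Finset.erase_insert (by simp)]
    exact h0
  · intro J hJ hc
    rw [Finset.range_zero, Finset.subset_empty] at hJ
    rw [hJ, Finset.card_empty] at hc
    omega
  · simp only
    rw [Finset.erase_insert (by simp), hm m le_rfl]

/-- Reading off the uniform minor. -/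
lemma BookSys.finish {k : ℕ} (h : BookSys M L n (2 * k) c t z) {τ p p' : ℕ}
    (hi : Inv M L n (2 * k) c τ p p' (2 * k) k) : HasUniformMinor M k := by
  classical
  obtain ⟨E, hs, -, h2, h3⟩ := hi
  have hins : insert (2 * k) (Finset.range (2 * k)) = Finset.range (2 * k + 1) := by
    rw [Finset.range_add_one]
  have hle := hs.insert_le h.row (j := 2 * k) (J := Finset.range (2 * k)) (by rw [hins])
  set f := f1 (2 * k) p p' (2 * k) 0 with hf
  have hs' := hs.mono (W' := Finset.range (2 * k)) (by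
    intro x hx
    rw [Finset.mem_range] at hx ⊢
    omega)
  obtain ⟨G, hG, hL, hn⟩ := hs'.ex
  have hτ1 := hs'.one
  have hτn := hs'.lt
  set C := G ∪ TT c n (BR (2 * k) : Finset (ℕ × ℕ)) τ with hC
  have hmem : ∀ i < 2 * k, f i ∈ ((BR (2 * k) : Finset (ℕ × ℕ)) : Set (ℕ × ℕ)) := fun i hi =>
    hs'.mem i (Finset.mem_range.2 hi)
  have hωE : ∀ i < 2 * k, c (f i) n ∈ M.E := fun i hi => h.row.cE _ (hmem i hi) n le_rfl
  have hωC : ∀ i < 2 * k, c (f i) n ∉ C := by
    rintro i hi (h4 | h4)
    · have := hL _ h4 (f i, n) (by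
        rw [h.row.cL _ (hmem i hi) n le_rfl]
        exact ⟨rfl, Or.inl ⟨rfl, by omega⟩⟩)
      simp only at this
      omega
    · obtain ⟨ρ, hρ, b', h5, hb', h6⟩ := mem_TT.1 h4
      have := (h.row.c_inj (hmem i hi) hρ le_rfl (by omega) (by omega) (by omega) h6).2
      omega
  have hωi : ∀ i < 2 * k, ∀ j < 2 * k, c (f i) n = c (f j) n → i = j := by
    intro i hi j hj hij
    have := (h.row.c_inj (hmem i hi) (hmem j hj) le_rfl le_rfl (by omega) (by omega) hij).1
    exact hs'.inj (Finset.mem_coe.2 (Finset.mem_range.2 hi)) (Finset.mem_coe.2 (Finset.mem_range.2 hj))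
      this
  have hCE : C ⊆ M.E := by
    rintro e (he | he)
    · exact hG he
    · obtain ⟨ρ, hρ, b, _, hb, rfl⟩ := mem_TT.1 he
      exact h.row.cE ρ hρ b (by omega)
  have hOE : ∀ J ⊆ Finset.range (2 * k), C ∪ Om c n f J ⊆ M.E := by
    rintro J hJ e (he | he)
    · exact hCE he
    · obtain ⟨j, hj, rfl⟩ := mem_Om.1 he
      exact hωE j (Finset.mem_range.1 (hJ hj))
  have hcard : ∀ J ⊆ Finset.range (2 * k), (C ∪ Om c n f J).ncard = C.ncard + J.card := by
    intro J hJ
    rw [ncard_union_eq ?_ (fin hCE) (fin (subset_union_right.trans (hOE J hJ))), Om,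
      InjOn.ncard_image, ncard_coe_finset]
    · intro i hi j hj hij
      exact hωi i (Finset.mem_range.1 (hJ hi)) j (Finset.mem_range.1 (hJ hj)) hij
    · rw [Set.disjoint_left]
      intro e he he'
      obtain ⟨j, hj, rfl⟩ := mem_Om.1 he'
      exact hωC j (Finset.mem_range.1 (hJ hj)) he
  set X := C ∪ Om c n f (Finset.range (2 * k)) with hX
  have hXE : X ⊆ M.E := hOE _ Finset.Subset.rfl
  have hrk : rk M X ≤ C.ncard + k := by
    have h4 : nul M X + rk M X = C.ncard + 2 * k := by
      rw [nul_add hXE, hX, hcard _ Finset.Subset.rfl, Finset.card_range]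
    have h5 : nul M X = E (Finset.range (2 * k)) := hn _ Finset.Subset.rfl
    omega
  have hbase : ∀ J ⊆ Finset.range (2 * k), J.card = k → (M ↾ X).IsBase (C ∪ Om c n f J) := by
    intro J hJ hc
    rw [Matroid.isBase_restrict_iff hXE]
    have hJn := hn J hJ
    rw [h2 J hJ hc] at hJn
    have hind := (nul_eq_zero (hOE J hJ)).1 hJn
    refine hind.isBasis_of_eRk_ge (fin (hOE J hJ)) ?_ ?_
    · refine union_subset_union_right _ ?_
      intro e he
      obtain ⟨j, hj, rfl⟩ := mem_Om.1 he
      exact mem_Om.2 ⟨j, hJ hj, rfl⟩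
    · rw [← cast_rk, ← cast_rk, rk_indep hind, hcard J hJ, hc]
      exact_mod_cast hrk
  have hfinX : (M ↾ X).Finite := ⟨by rw [Matroid.restrict_ground_eq]; exact fin hXE⟩
  have hU : HasUniformMinor (M ↾ X) k := by
    refine uniform_minor (M := M ↾ X) k C (fun i => c (f i) n) (fun i => c (f (k + i)) n) ?_ ?_ ?_
      ?_ ?_ ?_
    · intro i hi j hj hij
      rw [mem_ofPred_eq] at hi hj
      exact hωi i (by omega) j (by omega) hij
    · intro i hi j hj hij
      rw [mem_ofPred_eq] at hi hj
      have := hωi (k + i) (by omega) (k + j) (by omega) hij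
      omega
    · intro i hi j hj hij
      have := hωi i (by omega) (k + j) (by omega) hij
      omega
    · intro i hi
      exact hωC i (by omega)
    · intro i hi
      exact hωC (k + i) (by omega)
    · intro I B hI hB hIB
      have h4 := hbase (I ∪ B.image (fun i => k + i)) ?_ ?_
      · have e : (fun i => c (f i) n) '' (I : Set ℕ) ∪ (fun i => c (f (k + i)) n) '' (B : Set ℕ) =
            Om c n f (I ∪ B.image (fun i => k + i)) := by
          ext x
          rw [mem_Om]
          simp only [mem_union, mem_image, Finset.mem_coe, Finset.mem_union, Finset.mem_image]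
          constructor
          · rintro (⟨i, hi, rfl⟩ | ⟨i, hi, rfl⟩)
            · exact ⟨i, Or.inl hi, rfl⟩
            · exact ⟨k + i, Or.inr ⟨i, hi, rfl⟩, rfl⟩
          · rintro ⟨j, hj | ⟨i, hi, rfl⟩, rfl⟩
            · exact Or.inl ⟨j, hj, rfl⟩
            · exact Or.inr ⟨i, hi, rfl⟩
        rw [e]
        exact h4
      · intro x hx
        rw [Finset.mem_union, Finset.mem_image] at hx
        rw [Finset.mem_range]
        rcases hx with hx | ⟨i, hi, rfl⟩
        · have := hI x hx
          omega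
        · have := hB i hi
          omega
      · rw [Finset.card_union_of_disjoint, Finset.card_image_of_injective]
        · exact hIB
        · intro i j hij
          simpa using hij
        · rw [Finset.disjoint_left]
          intro x hx hx'
          obtain ⟨i, hi, rfl⟩ := Finset.mem_image.1 hx'
          have := hI _ hx
          omega
  obtain ⟨N, hN, h4, h5⟩ := hU
  refine ⟨N, hN.trans ?_, h4, h5⟩
  exact ⟨∅, M.E \ X, by rw [Matroid.contract_empty, Matroid.delete_compl hXE]⟩

/-- The bound. -/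
def bookBound (k : ℕ) : ℕ := 4 + k * (2 * k * (2 ^ (2 * k + 1) + 1 + 2 * k) + 1)

/-- **The generic book theorem.** -/
theorem book_uniform (k : ℕ) (hk : 1 ≤ k) (h : BookSys M L n (2 * k) c t z)
    (hn : bookBound k ≤ n) : HasUniformMinor M k := by
  set N := 2 ^ (2 * k + 1) + 1 with hN
  set D := 2 * k * (N + 2 * k) + 1 with hD
  have hbound : 4 + k * D ≤ n := hn
  have key : ∀ r, 1 ≤ r → r ≤ k → ∃ τ ≤ 2 + (r - 1) * D, ∃ p p',
      (p = 1 ∧ p' = 2 ∨ p = 2 ∧ p' = 1) ∧ Inv M L n (2 * k) c τ p p' 0 r := by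
    intro r hr
    induction r, hr using Nat.le_induction with
    | base =>
      intro _
      exact ⟨2, by omega, 1, 2, Or.inl ⟨rfl, rfl⟩, h.start (by omega)⟩
    | succ r hr ih =>
      intro hrk
      obtain ⟨τ, hτ, p, p', hp, hi⟩ := ih (by omega)
      have h1 : (r + 1 - 1) * D = (r - 1) * D + D := by
        rw [show r + 1 - 1 = (r - 1) + 1 by omega, Nat.succ_mul]
      have h2 : r * D ≤ k * D := Nat.mul_le_mul_right _ (by omega)
      have h3 : r * D = (r - 1) * D + D := by
        conv_lhs => rw [show r = (r - 1) + 1 by omega, Nat.succ_mul]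
      obtain ⟨τ', hτ', hi'⟩ := h.pass hp (N := N) (by omega) (2 * k) le_rfl (by omega) hi
      refine ⟨τ' + 1, by omega, p', p, by omega, h.turn hp (by omega) hi'⟩
  obtain ⟨τ, hτ, p, p', hp, hi⟩ := key k hk le_rfl
  have h3 : k * D = (k - 1) * D + D := by
    conv_lhs => rw [show k = (k - 1) + 1 by omega, Nat.succ_mul]
  obtain ⟨τ', hτ', hi'⟩ := h.pass hp (N := N) (by omega) (2 * k) le_rfl (by omega) hi
  exact h.finish hi'

end Book
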