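import Pool.Agent.Helper45.Book.State

/-!
# Operations on states: birth of a wire, move to another row, gate
-/

set_option linter.unusedSectionVars false

open Set

namespace Book

open BIC

variable {α R ι : Type*} {M : Matroid α} [M.Finite] {L : α → Set (R × ℕ)} {n : ℕ} {rows : Set R}
  {c : R → ℕ → α}

lemma nul_insert_of_mem {X : Set α} {e : α} (hX : X ⊆ M.E) (he : e ∈ M.E) (h : e ∈ M.closure X)
    (h' : e ∉ X) : nul M (insert e X) = nul M X + 1 := by
  have h1 := nul_add hX
  have h2 := nul_add (M := M) (insert_subset he hX)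
  have h3 := rk_insert_of_mem h
  rw [ncard_insert_of_notMem h' (fin hX)] at h2
  omega

lemma Om_update_of_notMem [DecidableEq ι] {f : ι → R} {J : Finset ι} {j : ι} {x : R} (hj : j ∉ J) :
    Om c n (Function.update f j x) J = Om c n f J := by
  ext e
  rw [mem_Om, mem_Om]
  constructor
  · rintro ⟨i, hi, rfl⟩
    have : i ≠ j := fun h => hj (h ▸ hi)
    rw [Function.update_of_ne this]
    exact ⟨i, hi, rfl⟩
  · rintro ⟨i, hi, rfl⟩
    have : i ≠ j := fun h => hj (h ▸ hi)
    refine ⟨i, hi, ?_⟩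
    rw [Function.update_of_ne this]

lemma Om_update_of_mem [DecidableEq ι] {f : ι → R} {J : Finset ι} {j : ι} {x : R} (hj : j ∈ J) :
    Om c n (Function.update f j x) J = insert (c x n) (Om c n f (J.erase j)) := by
  ext e
  rw [mem_insert_iff, mem_Om, mem_Om]
  constructor
  · rintro ⟨i, hi, rfl⟩
    by_cases h : i = j
    · subst h
      rw [Function.update_self]
      exact Or.inl rfl
    · rw [Function.update_of_ne h]
      exact Or.inr ⟨i, Finset.mem_erase.2 ⟨h, hi⟩, rfl⟩
  · rintro (rfl | ⟨i, hi, rfl⟩)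
    · refine ⟨j, hj, ?_⟩
      rw [Function.update_self]
    · rw [Finset.mem_erase] at hi
      refine ⟨i, hi.2, ?_⟩
      rw [Function.update_of_ne hi.1]

lemma Bx_update_of_notMem [DecidableEq ι] {G : Set α} {τ : ℕ} {f : ι → R} {J : Finset ι} {j : ι}
    {x : R} (hj : j ∉ J) :
    Bx c n rows G x τ (Function.update f j x) J = Bx c n rows G x τ f J := by
  rw [Bx, Bx, Om_update_of_notMem hj]

lemma Bx_update_of_mem [DecidableEq ι] {G : Set α} {τ : ℕ} {f : ι → R} {J : Finset ι} {j : ι}
    {x : R} (hj : j ∈ J) {b : ℕ} (hb : b ≤ n) :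
    Bx c n rows G x τ (Function.update f j x) J ∪ c x '' Ico b n =
      Bx c n rows G x τ f (J.erase j) ∪ c x '' Ico b (n + 1) := by
  have h2 : Ico b (n + 1) = insert n (Ico b n) := by
    ext x; simp only [mem_Ico, mem_insert_iff]; omega
  rw [Bx, Bx, Om_update_of_mem hj, h2, image_insert_eq]
  ext y
  simp only [mem_union, mem_insert_iff]
  tauto

lemma update_injOn [DecidableEq ι] {f : ι → R} {W : Finset ι} (hf : InjOn f W) {j : ι} {x : R}
    (hx : ∀ i ∈ W, f i ≠ x) : InjOn (Function.update f j x) (W : Set ι) := by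
  intro i hi k hk hik
  by_cases h1 : i = j <;> by_cases h2 : k = j
  · rw [h1, h2]
  · subst h1
    rw [Function.update_self, Function.update_of_ne h2] at hik
    exact absurd hik.symm (hx k hk)
  · subst h2
    rw [Function.update_self, Function.update_of_ne h1] at hik
    exact absurd hik (hx i hi)
  · rw [Function.update_of_ne h1, Function.update_of_ne h2] at hik
    exact hf hi hk hik

lemma St.congr {τ : ℕ} {W : Finset ι} {f f' : ι → R} {E E' : Finset ι → ℕ}
    (h : St M L n rows c τ W f E) (hf : ∀ j ∈ W, f j = f' j) (hE : ∀ J ⊆ W, E J = E' J) :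
    St M L n rows c τ W f' E' where
  one := h.one
  lt := h.lt
  inj := by
    intro i hi k hk hik
    rw [← hf i hi, ← hf k hk] at hik
    exact h.inj hi hk hik
  mem := fun j hj => hf j hj ▸ h.mem j hj
  ex := by
    obtain ⟨G, hG, hL, hn⟩ := h.ex
    refine ⟨G, hG, hL, fun J hJ => ?_⟩
    rw [← hE J hJ, ← hn J hJ]
    have : Om c n f' J = Om c n f J := by
      ext e
      rw [mem_Om, mem_Om]
      constructor
      · rintro ⟨i, hi, rfl⟩
        exact ⟨i, hi, by rw [hf i (hJ hi)]⟩
      · rintro ⟨i, hi, rfl⟩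
        exact ⟨i, hi, by rw [hf i (hJ hi)]⟩
    rw [this]

lemma St.mono {τ : ℕ} {W W' : Finset ι} {f : ι → R} {E : Finset ι → ℕ}
    (h : St M L n rows c τ W f E) (hW : W' ⊆ W) : St M L n rows c τ W' f E where
  one := h.one
  lt := h.lt
  inj := h.inj.mono (by exact_mod_cast hW)
  mem := fun j hj => h.mem j (hW hj)
  ex := by
    obtain ⟨G, hG, hL, hn⟩ := h.ex
    exact ⟨G, hG, hL, fun J hJ => hn J (hJ.trans hW)⟩

lemma St.insert_le [DecidableEq ι] (h : Rowed M L n rows c) {τ : ℕ} {W : Finset ι} {f : ι → R}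
    {E : Finset ι → ℕ} (hs : St M L n rows c τ W f E) {J : Finset ι} {j : ι} (hj : insert j J ⊆ W) :
    E (insert j J) ≤ E J + 1 := by
  obtain ⟨G, hG, hL, hn⟩ := hs.ex
  have hJ : J ⊆ W := (Finset.subset_insert _ _).trans hj
  rw [← hn _ hj, ← hn _ hJ]
  have hOm : Om c n f (insert j J) = insert (c (f j) n) (Om c n f J) := by
    simp only [Om, Finset.coe_insert, image_insert_eq]
  rw [hOm, union_insert]
  refine nul_insert_le ?_ (h.cE _ (hs.mem j (hj (Finset.mem_insert_self _ _))) n le_rfl)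
  rintro e ((he | he) | he)
  · exact hG he
  · obtain ⟨ρ, hρ, b, _, hb, rfl⟩ := mem_TT.1 he
    exact h.cE ρ hρ b (by omega)
  · obtain ⟨i, hi, rfl⟩ := mem_Om.1 he
    exact h.cE _ (hs.mem i (hJ hi)) n le_rfl

/-- Birth of the wire `w` on the free row `x`. -/
lemma St.birth [DecidableEq ι] (h : Rowed M L n rows c) {τ : ℕ} {W : Finset ι} {f : ι → R}
    {E : Finset ι → ℕ} (hs : St M L n rows c τ W f E) (hτ : τ + 1 < n) {w : ι} (hw : w ∉ W)
    {x : R} (hx : x ∈ rows) (hxW : ∀ j ∈ W, f j ≠ x) :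
    St M L n rows c (τ + 1) (insert w W) (Function.update f w x) (fun J => E (J.erase w)) where
  one := by omega
  lt := hτ
  inj := by
    intro i hi k hk hik
    by_cases h1 : i = w <;> by_cases h2 : k = w
    · rw [h1, h2]
    · subst h1
      rw [Function.update_self, Function.update_of_ne h2] at hik
      have hk' : k ∈ W := by
        have := Finset.mem_coe.1 hk
        rw [Finset.mem_insert] at this
        exact this.resolve_left h2
      exact absurd hik.symm (hxW k hk')
    · subst h2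
      rw [Function.update_self, Function.update_of_ne h1] at hik
      have hi' : i ∈ W := by
        have := Finset.mem_coe.1 hi
        rw [Finset.mem_insert] at this
        exact this.resolve_left h1
      exact absurd hik (hxW i hi')
    · rw [Function.update_of_ne h1, Function.update_of_ne h2] at hik
      have hk' : k ∈ W := by
        have := Finset.mem_coe.1 hk
        rw [Finset.mem_insert] at this
        exact this.resolve_left h2
      have hi' : i ∈ W := by
        have := Finset.mem_coe.1 hi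
        rw [Finset.mem_insert] at this
        exact this.resolve_left h1
      exact hs.inj hi' hk' hik
  mem := by
    intro j hj
    by_cases h1 : j = w
    · subst h1
      rw [Function.update_self]
      exact hx
    · rw [Function.update_of_ne h1]
      exact hs.mem j ((Finset.mem_insert.1 hj).resolve_left h1)
  ex := by
    obtain ⟨G, hG, hL, hn⟩ := hs.ex
    have hτ1 := hs.one
    refine ⟨Rowed.Gx c rows G x τ (τ + 1) (τ + 1), h.Gx_sub hG hx (by omega),
      h.Gx_legs hx (by omega) (by omega) hL, ?_⟩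
    intro J hJ
    rw [Rowed.Gx_TT hx (by omega) (by omega) le_rfl]
    by_cases hwJ : w ∈ J
    · have hJ' : J.erase w ⊆ W := by
        intro j hj
        rw [Finset.mem_erase] at hj
        exact (Finset.mem_insert.1 (hJ hj.2)).resolve_left hj.1
      rw [Bx_update_of_mem hwJ (by omega), ← hn _ hJ',
        h.nul_Bx hG hx hL (fun j hj => hs.mem j (hJ' hj)) (fun j hj => hxW j (hJ' hj))]
      refine h.rowB hx (h.Bx_sub hG fun j hj => hs.mem j (hJ' hj)) le_rfl (n + 1) (τ + 1)
        (by omega) (by omega) ?_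
      intro e he b hb _
      exact h.Bx_fresh hL (fun j hj => hs.mem j (hJ' hj)) (fun j hj => hxW j (hJ' hj)) e he b
        (by omega)
    · have hJ' : J ⊆ W := by
        intro j hj
        refine (Finset.mem_insert.1 (hJ hj)).resolve_left ?_
        rintro rfl
        exact hwJ hj
      rw [Bx_update_of_notMem hwJ, Finset.erase_eq_of_notMem hwJ, ← hn _ hJ',
        h.nul_Bx hG hx hL (fun j hj => hs.mem j (hJ' hj)) (fun j hj => hxW j (hJ' hj))]
      refine h.rowF hx (h.Bx_sub hG fun j hj => hs.mem j (hJ' hj)) n le_rfl ?_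
      intro e he b hb _
      exact h.Bx_fresh hL (fun j hj => hs.mem j (hJ' hj)) (fun j hj => hxW j (hJ' hj)) e he b
        (by omega)

/-- A wire moves to a free row along a connector. -/
lemma St.move [DecidableEq ι] [DecidableEq R] (h : Rowed M L n rows c) {τ : ℕ} {W : Finset ι}
    {f : ι → R} {E : Finset ι → ℕ} (hs : St M L n rows c τ W f E) (hτ : τ + 1 < n) {j : ι}
    (hj : j ∈ W) {x : R} (hx : x ∈ rows) (hxW : ∀ j ∈ W, f j ≠ x) {t : α} (ht : t ∈ M.E)
    (htL : ∀ v, v ∈ L t ↔ (v.1 = x ∨ v.1 = f j) ∧ v.2 = τ + 1) :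
    St M L n rows c (τ + 1) W (Function.update f j x) E where
  one := by omega
  lt := hτ
  inj := update_injOn hs.inj hxW
  mem := by
    intro i hi
    by_cases h1 : i = j
    · subst h1
      rw [Function.update_self]
      exact hx
    · rw [Function.update_of_ne h1]
      exact hs.mem i hi
  ex := by
    obtain ⟨G, hG, hL, hn⟩ := hs.ex
    have hτ1 := hs.one
    refine ⟨insert t (Rowed.Gx c rows G x τ (τ + 1) (τ + 1)), insert_subset ht (h.Gx_sub hG hx (by omega)),
      ?_, ?_⟩
    · rintro e (rfl | he) v hv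
      · exact ((htL v).1 hv).2.le
      · exact h.Gx_legs hx (by omega) (by omega) hL e he v hv
    intro J hJ
    rw [insert_union, insert_union, Rowed.Gx_TT hx (by omega) (by omega) le_rfl]
    by_cases hjJ : j ∈ J
    · have hJ' : J.erase j ⊆ W := (Finset.erase_subset _ _).trans hJ
      have hins : insert j (J.erase j) = J := Finset.insert_erase hjJ
      rw [Bx_update_of_mem hjJ (by omega),
        h.a2 (K := {x, f j}) (q := j) hG hx hτ1 hs.lt (Finset.notMem_erase _ _) hL
          (by rw [hins]; exact fun i hi => hs.mem i (hJ hi))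
          (by rw [hins]; exact hs.inj.mono (by exact_mod_cast hJ))
          (by rw [hins]; exact fun i hi => hxW i (hJ hi)) (by omega) (by omega) ht
          (by intro v; rw [htL]; simp) (by simp) (by simp), hins, ← hn _ hJ,
        h.nul_Bx hG hx hL (fun i hi => hs.mem i (hJ hi)) (fun i hi => hxW i (hJ hi))]
      intro κ hκ
      rw [hins]
      rcases Finset.mem_insert.1 hκ with h1 | h1
      · exact Or.inl h1
      · exact Or.inr ⟨j, hjJ, (Finset.mem_singleton.1 h1).symm⟩
    · rw [Bx_update_of_notMem hjJ,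
        h.a1 hG hx hL (fun i hi => hs.mem i (hJ hi)) (fun i hi => hxW i (hJ hi))
          (by omega) ht (fun v hv => ((htL v).1 hv).2) ((htL _).2 ⟨Or.inl rfl, rfl⟩), ← hn _ hJ,
        h.nul_Bx hG hx hL (fun i hi => hs.mem i (hJ hi)) (fun i hi => hxW i (hJ hi))]

/-- At most one bad window for every condition. -/
lemma Rowed.bad [DecidableEq ι] (h : Rowed M L n rows c) {G : Set α} (hGE : G ⊆ M.E) {x : R}
    (hx : x ∈ rows) {τ b b' : ℕ} (hτ : 1 ≤ τ) (hτn : τ < n) {f : ι → R} {J : Finset ι} {a q : ι}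
    (ha : a ∉ J) (hG : ∀ e ∈ G, ∀ v ∈ L e, v.2 ≤ τ) (hJ : ∀ j ∈ insert a J, f j ∈ rows)
    (hinj : InjOn f (insert a J : Finset ι)) (hxJ : ∀ j ∈ insert a J, f j ≠ x) (hb : τ < b)
    (hbb : b < b') (hq : f q ∈ rows) (hqx : f q ≠ x) {z z' : α}
    (hz : z ∈ M.E) (hz' : z' ∈ M.E)
    (hnp : c (f a) n ∈ M.closure ({z, z'} ∪ c (f a) '' Ico b n ∪ c (f q) '' Ico b n ∪
      c x '' Ico b (n + 1)))
    (h0 : nul M (Bx c n rows G x τ f (insert a J)) = 0)
    (h1 : nul M (insert z (Bx c n rows G x τ f J ∪ c x '' Ico b (n + 1))) ≠ 0)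
    (h2 : nul M (insert z' (Bx c n rows G x τ f J ∪ c x '' Ico b' (n + 1))) ≠ 0) : False := by
  have hJ' : ∀ j ∈ J, f j ∈ rows := fun j hj => hJ j (Finset.mem_insert_of_mem hj)
  have hxJ' : ∀ j ∈ J, f j ≠ x := fun j hj => hxJ j (Finset.mem_insert_of_mem hj)
  have hfa := hJ a (Finset.mem_insert_self _ _)
  have hax := hxJ a (Finset.mem_insert_self _ _)
  have hB := h.Bx_sub hGE (x := x) (τ := τ) hJ
  have hB' := h.Bx_sub hGE (x := x) (τ := τ) hJ'
  have hfr := h.Bx_fresh hG hJ hxJ
  have hrow : ∀ b, c x '' Ico b (n + 1) ⊆ M.E := fun b => h.row_sub hx (a := b) le_rfl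
  have hOm : Om c n f (insert a J) = insert (c (f a) n) (Om c n f J) := by
    simp only [Om, Finset.coe_insert, image_insert_eq]
  have hBB : Bx c n rows G x τ f (insert a J) = insert (c (f a) n) (Bx c n rows G x τ f J) := by
    rw [Bx, Bx, hOm, union_insert]
  have hn : ∀ b'', τ < b'' → nul M (Bx c n rows G x τ f (insert a J) ∪ c x '' Ico b'' (n + 1)) = 0 := by
    intro b'' hb''
    rw [← h0]
    refine h.rowB hx hB le_rfl (n + 1) b'' (by omega) (by omega) ?_
    intro y hy b3 h2 _
    exact hfr y hy b3 (by omega)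
  have hn' : ∀ b'', τ < b'' → nul M (Bx c n rows G x τ f J ∪ c x '' Ico b'' (n + 1)) = 0 := by
    intro b'' hb''
    have := nul_mono (M := M) (X := Bx c n rows G x τ f J ∪ c x '' Ico b'' (n + 1))
      (Y := Bx c n rows G x τ f (insert a J) ∪ c x '' Ico b'' (n + 1))
      (union_subset_union_left _ (by rw [hBB]; exact subset_insert _ _))
      (union_subset hB (hrow _))
    rw [hn b'' hb''] at this
    omega
  have hzc : z ∈ M.closure (Bx c n rows G x τ f J ∪ c x '' Ico b (n + 1)) := by
    by_contra h3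
    rw [nul_insert_of_notMem (union_subset hB' (hrow _)) hz h3, hn' b hb] at h1
    exact h1 rfl
  have hzc' : z' ∈ M.closure (Bx c n rows G x τ f J ∪ c x '' Ico b (n + 1)) := by
    refine M.closure_subset_closure (X := Bx c n rows G x τ f J ∪ c x '' Ico b' (n + 1)) ?_ ?_
    · refine union_subset_union_right _ (image_mono ?_)
      intro y hy
      rw [mem_Ico] at hy ⊢
      omega
    · by_contra h3
      rw [nul_insert_of_notMem (union_subset hB' (hrow _)) hz' h3, hn' b' (by omega)] at h2
      exact h2 rfl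
  have hac : c (f a) n ∈ M.closure (Bx c n rows G x τ f J ∪ c x '' Ico b (n + 1)) := by
    refine M.closure_subset_closure_of_subset_closure ?_ hnp
    have hsub := M.subset_closure (Bx c n rows G x τ f J ∪ c x '' Ico b (n + 1))
      (union_subset hB' (hrow _))
    rintro y (((hy | hy) | hy) | hy)
    · rcases hy with rfl | hy
      · exact hzc
      · rw [mem_singleton_iff.1 hy]
        exact hzc'
    · obtain ⟨b3, hb3, rfl⟩ := hy
      rw [mem_Ico] at hb3
      exact hsub (Or.inl (Or.inl (Or.inr (mem_TT.2 ⟨f a, ⟨hfa, hax⟩, b3, by omega, by omega, rfl⟩))))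
    · obtain ⟨b3, hb3, rfl⟩ := hy
      rw [mem_Ico] at hb3
      exact hsub (Or.inl (Or.inl (Or.inr (mem_TT.2 ⟨f q, ⟨hq, hqx⟩, b3, by omega, by omega, rfl⟩))))
    · exact hsub (Or.inr hy)
  have hnm : c (f a) n ∉ Bx c n rows G x τ f J ∪ c x '' Ico b (n + 1) := by
    rintro (((h2 | h2) | h2) | ⟨b', hb', h2⟩)
    · have := hG _ h2 (f a, n) (by
        rw [h.cL _ hfa n le_rfl]
        exact ⟨rfl, Or.inl ⟨rfl, by omega⟩⟩)
      simp only at this
      omega
    · obtain ⟨ρ, hρ, b', h4, hb', h3⟩ := mem_TT.1 h2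
      have := (h.c_inj hfa hρ.1 le_rfl (by omega) (by omega) (by omega) h3).2
      omega
    · obtain ⟨j, hj, h3⟩ := mem_Om.1 h2
      have := (h.c_inj hfa (hJ' j hj) le_rfl (by omega) (by omega) (by omega) h3).1
      have h5 := hinj (by simp) (by simp [hj]) this
      exact ha (h5 ▸ hj)
    · rw [mem_Ico] at hb'
      exact hax (h.c_inj hx hfa (by omega) le_rfl (by omega) (by omega) h2).1.symm
  have h3 := nul_insert_of_mem (union_subset hB' (hrow _)) (h.cE _ hfa n le_rfl) hac hnm
  have h4 := hn b hb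
  rw [hBB, insert_union, h3] at h4
  omega

/-- The gate: the wire `q` on its row `f q` is replaced by a wire on the free row `x`, a generic
point of the line of `q` and `a`. -/
lemma St.gate [DecidableEq ι] [DecidableEq R] (h : Rowed M L n rows c) {τ N : ℕ} {W : Finset ι}
    {f : ι → R} {E : Finset ι → ℕ} (hs : St M L n rows c τ W f E) (hN : 2 ^ W.card < N)
    (hτ : τ + N < n) {a q : ι} (ha : a ∈ W) (hq : q ∈ W) (haq : a ≠ q)
    {x : R} (hx : x ∈ rows) (hxW : ∀ j ∈ W, f j ≠ x) {z : ℕ → α}
    (hz : ∀ b, 1 ≤ b → b ≤ n → z b ∈ M.E)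
    (hzL : ∀ b, 1 ≤ b → b ≤ n → ∀ v, v ∈ L (z b) ↔ (v.1 = x ∨ v.1 = f a ∨ v.1 = f q) ∧ v.2 = b)
    (hnp : ∀ b b', 1 ≤ b → b < b' → b' ≤ n →
      c (f a) n ∈ M.closure ({z b, z b'} ∪ c (f a) '' Ico b n ∪ c (f q) '' Ico b n ∪
        c x '' Ico b (n + 1))) :
    ∃ E', St M L n rows c (τ + N) W (Function.update f q x) E' ∧
      (∀ J ⊆ W, (q ∉ J ∨ a ∈ J) → E' J = E J) ∧
      (∀ J ⊆ W, q ∈ J → a ∉ J → E (insert a (J.erase q)) = 0 → E' J = 0) := by
  classical
  obtain ⟨G, hG, hL, hn⟩ := hs.ex
  have hτ1 := hs.one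
  have hWr : ∀ J ⊆ W, ∀ i ∈ J, f i ∈ rows := fun J hJ i hi => hs.mem i (hJ hi)
  have hWx : ∀ J ⊆ W, ∀ i ∈ J, f i ≠ x := fun J hJ i hi => hxW i (hJ hi)
  -- the bad windows
  set bad : Finset ι → Finset ℕ := fun J => (Finset.Ioc τ (τ + N)).filter fun b =>
    a ∉ J ∧ q ∉ J ∧ E (insert a J) = 0 ∧
      nul M (insert (z b) (Bx c n rows G x τ f J ∪ c x '' Ico b (n + 1))) ≠ 0 with hbad
  have hbad1 : ∀ J ∈ W.powerset, (bad J).card ≤ 1 := by
    intro J hJ
    rw [Finset.mem_powerset] at hJ
    rw [Finset.card_le_one]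
    have key : ∀ b ∈ bad J, ∀ b' ∈ bad J, ¬ b < b' := by
      intro b hb b' hb' hlt
      simp only [hbad, Finset.mem_filter, Finset.mem_Ioc] at hb hb'
      have haJ : insert a J ⊆ W := Finset.insert_subset ha hJ
      refine h.bad hG hx hτ1 hs.lt (b := b) (b' := b') (a := a) (q := q) hb.2.1 hL (hWr _ haJ)
        (hs.inj.mono (by exact_mod_cast haJ)) (hWx _ haJ) (by omega) hlt (hs.mem q hq) (hxW q hq)
        (hz b (by omega) (by omega)) (hz b' (by omega) (by omega))
        (hnp b b' (by omega) hlt (by omega)) ?_ hb.2.2.2.2 hb'.2.2.2.2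
      rw [← h.nul_Bx hG hx hL (hWr _ haJ) (hWx _ haJ), hn _ haJ]
      exact hb.2.2.2.1
    intro b hb b' hb'
    rcases lt_trichotomy b b' with h1 | h1 | h1
    · exact absurd h1 (key b hb b' hb')
    · exact h1
    · exact absurd h1 (key b' hb' b hb)
  obtain ⟨b, hb, hbg⟩ : ∃ b ∈ Finset.Ioc τ (τ + N), ∀ J ∈ W.powerset, b ∉ bad J := by
    by_contra hcon
    push Not at hcon
    have h1 : Finset.Ioc τ (τ + N) ⊆ W.powerset.biUnion bad := by
      intro b hb
      obtain ⟨J, hJ, h2⟩ := hcon b hb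
      exact Finset.mem_biUnion.2 ⟨J, hJ, h2⟩
    have h2 := Finset.card_le_card h1
    have h3 : (W.powerset.biUnion bad).card ≤ W.powerset.card * 1 :=
      Finset.card_biUnion_le_card_mul _ _ _ hbad1
    rw [Nat.card_Ioc, Finset.card_powerset] at *
    omega
  rw [Finset.mem_Ioc] at hb
  have hzb := hz b (by omega) (by omega)
  have hzbL := hzL b (by omega) (by omega)
  set G' := insert (z b) (Rowed.Gx c rows G x τ b (τ + N)) with hG'
  have hset : ∀ J, G' ∪ TT c n rows (τ + N) ∪ Om c n (Function.update f q x) J =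
      insert (z b) (Bx c n rows G x τ (Function.update f q x) J ∪ c x '' Ico b n) := by
    intro J
    rw [hG', insert_union, insert_union, Rowed.Gx_TT hx (by omega) (by omega) (by omega)]
  refine ⟨fun J => nul M (G' ∪ TT c n rows (τ + N) ∪ Om c n (Function.update f q x) J), ?_, ?_, ?_⟩
  · refine ⟨by omega, hτ, update_injOn hs.inj hxW, ?_, G', ?_, ?_, fun J _ => rfl⟩
    · intro i hi
      by_cases h1 : i = q
      · subst h1
        rw [Function.update_self]
        exact hx
      · rw [Function.update_of_ne h1]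
        exact hs.mem i hi
    · exact insert_subset hzb (h.Gx_sub hG hx (by omega))
    · rintro e (rfl | he) v hv
      · have := ((hzbL v).1 hv).2
        omega
      · exact h.Gx_legs hx (by omega) (by omega) hL e he v hv
  · intro J hJ hJq
    simp only
    rw [hset]
    by_cases hqJ : q ∈ J
    · have haJ : a ∈ J := hJq.resolve_left (fun h1 => h1 hqJ)
      have hins : insert q (J.erase q) = J := Finset.insert_erase hqJ
      rw [Bx_update_of_mem hqJ (by omega),
        h.a2 (K := {x, f a, f q}) (q := q) hG hx hτ1 hs.lt (Finset.notMem_erase _ _) hL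
          (by rw [hins]; exact hWr J hJ)
          (by rw [hins]; exact hs.inj.mono (by exact_mod_cast hJ))
          (by rw [hins]; exact hWx J hJ) (by omega) (by omega) hzb
          (by intro v; rw [hzbL]; simp) (by simp) (by simp), hins, ← hn _ hJ,
        h.nul_Bx hG hx hL (hWr J hJ) (hWx J hJ)]
      intro κ hκ
      rw [hins]
      simp only [Finset.mem_insert, Finset.mem_singleton] at hκ
      rcases hκ with h1 | h1 | h1
      · exact Or.inl h1
      · exact Or.inr ⟨a, haJ, h1.symm⟩
      · exact Or.inr ⟨q, hqJ, h1.symm⟩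
    · rw [Bx_update_of_notMem hqJ,
        h.a1 hG hx hL (hWr J hJ) (hWx J hJ)
          (by omega) hzb (fun v hv => ((hzbL v).1 hv).2) ((hzbL _).2 ⟨Or.inl rfl, rfl⟩), ← hn _ hJ,
        h.nul_Bx hG hx hL (hWr J hJ) (hWx J hJ)]
  · intro J hJ hqJ haJ hE
    simp only
    rw [hset, Bx_update_of_mem hqJ (by omega)]
    have hJ' : J.erase q ⊆ W := (Finset.erase_subset _ _).trans hJ
    have h1 := hbg (J.erase q) (Finset.mem_powerset.2 hJ')
    by_contra h2
    apply h1
    simp only [hbad, Finset.mem_filter, Finset.mem_Ioc]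
    refine ⟨hb, ?_, Finset.notMem_erase _ _, hE, h2⟩
    intro h3
    exact haJ (Finset.mem_of_mem_erase h3)

end Book
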