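import Pool.Agent.Helper45.Book.Basic

/-!
# Rows and windows

Rows `ρ` carry elements `c ρ b`, `b ≤ n`; the element `c ρ b` joins the nodes `(ρ, b)` and
`(ρ, b + 1)`; the nodes are `(ρ, 1), .., (ρ, n)`.
-/

set_option linter.unusedSectionVars false

open Set

namespace Book

open BIC

variable {α R : Type*}

/-- The legs of `c ρ b`. -/
def cLeg (n : ℕ) (ρ : R) (b : ℕ) : Set (R × ℕ) :=
  {v | v.1 = ρ ∧ ((v.2 = b ∧ 1 ≤ b) ∨ (v.2 = b + 1 ∧ b < n))}

/-- A located matroid with rows. -/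
structure Rowed (M : Matroid α) (L : α → Set (R × ℕ)) (n : ℕ) (rows : Set R)
    (c : R → ℕ → α) : Prop where
  loc : Located M L
  cE : ∀ ρ ∈ rows, ∀ b ≤ n, c ρ b ∈ M.E
  cL : ∀ ρ ∈ rows, ∀ b ≤ n, L (c ρ b) = cLeg n ρ b

variable {M : Matroid α} [M.Finite] {L : α → Set (R × ℕ)} {n : ℕ} {rows : Set R} {c : R → ℕ → α}

namespace Rowed

variable (h : Rowed M L n rows c)
include h

lemma row_sub {ρ : R} (hρ : ρ ∈ rows) {a u : ℕ} (hu : u ≤ n + 1) : c ρ '' Ico a u ⊆ M.E := by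
  rintro _ ⟨b, hb, rfl⟩
  rw [mem_Ico] at hb
  exact h.cE ρ hρ b (by omega)

/-- Adding a piece of a row from left to right. -/
lemma rowF {ρ : R} (hρ : ρ ∈ rows) {A : Set α} (hA : A ⊆ M.E) {a : ℕ} :
    ∀ u, u ≤ n → (∀ e ∈ A, ∀ b, a < b → b ≤ u → (ρ, b) ∉ L e) →
      nul M (A ∪ c ρ '' Ico a u) = nul M A := by
  intro u
  induction u with
  | zero => intro _ _; simp
  | succ u ih =>
    intro hu hf
    by_cases hau : a ≤ u
    · have e : A ∪ c ρ '' Ico a (u + 1) = insert (c ρ u) (A ∪ c ρ '' Ico a u) := by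
        have : Ico a (u + 1) = insert u (Ico a u) := by
          ext x; simp only [mem_Ico, mem_insert_iff]; omega
        rw [this, image_insert_eq, union_insert]
      rw [e, h.loc.nul_fresh (v := (ρ, u + 1)) ?_ (h.cE ρ hρ u (by omega)) ?_ ?_]
      · exact ih (by omega) (fun e he b h1 h2 => hf e he b h1 (by omega))
      · exact union_subset hA (h.row_sub hρ (by omega))
      · rw [h.cL ρ hρ u (by omega)]
        exact ⟨rfl, Or.inr ⟨rfl, by omega⟩⟩
      · rintro x (hx | ⟨b, hb, rfl⟩)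
        · exact hf x hx (u + 1) (by omega) le_rfl
        · rw [mem_Ico] at hb
          rw [h.cL ρ hρ b (by omega)]
          rintro ⟨_, ⟨h1, _⟩ | ⟨h1, _⟩⟩ <;> simp only at h1 <;> omega
    · have : Ico a (u + 1) = ∅ := by
        ext x; simp only [mem_Ico, mem_empty_iff_false, iff_false]; omega
      rw [this]; simp

/-- Adding a piece of a row from right to left. -/
lemma rowB {ρ : R} (hρ : ρ ∈ rows) {A : Set α} (hA : A ⊆ M.E) {u : ℕ} (hu : u ≤ n + 1) :
    ∀ d a, u ≤ a + d → 1 ≤ a → (∀ e ∈ A, ∀ b, a ≤ b → b < u → (ρ, b) ∉ L e) →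
      nul M (A ∪ c ρ '' Ico a u) = nul M A := by
  intro d
  induction d with
  | zero =>
    intro a ha _ _
    have : Ico a u = ∅ := by
      ext x; simp only [mem_Ico, mem_empty_iff_false, iff_false]; omega
    rw [this]; simp
  | succ d ih =>
    intro a ha h1a hf
    by_cases hau : a < u
    · have e : A ∪ c ρ '' Ico a u = insert (c ρ a) (A ∪ c ρ '' Ico (a + 1) u) := by
        have : Ico a u = insert a (Ico (a + 1) u) := by
          ext x; simp only [mem_Ico, mem_insert_iff]; omega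
        rw [this, image_insert_eq, union_insert]
      rw [e, h.loc.nul_fresh (v := (ρ, a)) ?_ (h.cE ρ hρ a (by omega)) ?_ ?_]
      · exact ih (a + 1) (by omega) (by omega) (fun e he b h1 h2 => hf e he b (by omega) h2)
      · exact union_subset hA (h.row_sub hρ hu)
      · rw [h.cL ρ hρ a (by omega)]
        exact ⟨rfl, Or.inl ⟨rfl, h1a⟩⟩
      · rintro x (hx | ⟨b, hb, rfl⟩)
        · exact hf x hx a le_rfl hau
        · rw [mem_Ico] at hb
          rw [h.cL ρ hρ b (by omega)]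
          rintro ⟨_, ⟨h1, _⟩ | ⟨h1, _⟩⟩ <;> simp only at h1 <;> omega
    · have : Ico a u = ∅ := by
        ext x; simp only [mem_Ico, mem_empty_iff_false, iff_false]; omega
      rw [this]; simp

/-- right tails of a set `K` of rows -/
lemma tails_nul {K : Finset R} [DecidableEq R] (hK : ∀ ρ ∈ K, ρ ∈ rows) {b : ℕ} (hb : 1 ≤ b) :
    nul M (⋃ ρ ∈ K, c ρ '' Ico b (n + 1)) = 0 := by
  induction K using Finset.induction_on with
  | empty => simpa using nul_empty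
  | insert ρ K hρ ih =>
    have e : (⋃ κ ∈ insert ρ K, c κ '' Ico b (n + 1)) =
        (⋃ κ ∈ K, c κ '' Ico b (n + 1)) ∪ c ρ '' Ico b (n + 1) := by
      rw [Finset.set_biUnion_insert, union_comm]
    have hsub : (⋃ κ ∈ K, c κ '' Ico b (n + 1)) ⊆ M.E :=
      iUnion₂_subset fun κ hκ => h.row_sub (hK κ (Finset.mem_insert_of_mem hκ)) le_rfl
    rw [e, h.rowB (hK ρ (Finset.mem_insert_self _ _)) hsub le_rfl (n + 1) b (by omega) hb]
    · exact ih fun κ hκ => hK κ (Finset.mem_insert_of_mem hκ)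
    · intro x hx b' h1 h2
      rw [mem_iUnion₂] at hx
      obtain ⟨κ, hκ, b'', hb'', rfl⟩ := hx
      rw [mem_Ico] at hb''
      rw [h.cL κ (hK κ (Finset.mem_insert_of_mem hκ)) b'' (by omega)]
      rintro ⟨h3, _⟩
      simp only at h3
      exact hρ (h3 ▸ hκ)

lemma c_inj {ρ κ : R} (hρ : ρ ∈ rows) (hκ : κ ∈ rows) {a b : ℕ} (ha : a ≤ n) (hb : b ≤ n)
    (ha1 : 1 ≤ a) (hb1 : 1 ≤ b) (he : c ρ a = c κ b) : ρ = κ ∧ a = b := by
  have h1 := h.cL ρ hρ a ha
  have h2 := h.cL κ hκ b hb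
  rw [he, h2] at h1
  have h3 : (κ, b) ∈ cLeg n κ b := ⟨rfl, Or.inl ⟨rfl, hb1⟩⟩
  have h4 : (ρ, a) ∈ cLeg n ρ a := ⟨rfl, Or.inl ⟨rfl, ha1⟩⟩
  rw [h1] at h3
  rw [← h1] at h4
  obtain ⟨h5, h6⟩ := h3
  obtain ⟨h7, h8⟩ := h4
  simp only at h5 h6 h7 h8
  refine ⟨h7, ?_⟩
  omega

end Rowed

end Book
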