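import Pool.Agent.Helper45.Book.Ops

/-!
# Two pages and one row: stack moves
-/

set_option linter.unusedSectionVars false

open Set

namespace Book

open BIC

variable {α : Type*}

/-- The rows: `(0,0)` and the rows `(p, i)`, `p = 1, 2`, `i < m`. -/
def BR (m : ℕ) : Finset (ℕ × ℕ) := insert (0, 0) (({1, 2} : Finset ℕ) ×ˢ Finset.range m)

lemma mem_BR {m : ℕ} {ρ : ℕ × ℕ} :
    ρ ∈ ((BR m : Finset (ℕ × ℕ)) : Set (ℕ × ℕ)) ↔ ρ = (0, 0) ∨ ((ρ.1 = 1 ∨ ρ.1 = 2) ∧ ρ.2 < m) := by
  simp only [BR, Finset.coe_insert, Finset.coe_product, mem_insert_iff, mem_prod, Finset.mem_coe,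
    Finset.mem_insert, Finset.mem_singleton, Finset.mem_range]

/-- Two pages of depth `m` and one row, joined by the gates `z b`. The gates are pairwise
non-parallel as seen from both pages. -/
structure BookSys (M : Matroid α) (L : α → Set ((ℕ × ℕ) × ℕ)) (n m : ℕ) (c t : ℕ × ℕ → ℕ → α)
    (z : ℕ → α) : Prop where
  row : Rowed M L n (BR m : Finset (ℕ × ℕ)) c
  tE : ∀ p, (p = 1 ∨ p = 2) → ∀ i, i + 1 < m → ∀ b, 1 ≤ b → b ≤ n → t (p, i) b ∈ M.E
  tL : ∀ p, (p = 1 ∨ p = 2) → ∀ i, i + 1 < m → ∀ b, 1 ≤ b → b ≤ n → ∀ v, v ∈ L (t (p, i) b) ↔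
    (v.1 = (p, i) ∨ v.1 = (p, i + 1)) ∧ v.2 = b
  zE : ∀ b, 1 ≤ b → b ≤ n → z b ∈ M.E
  zL : ∀ b, 1 ≤ b → b ≤ n → ∀ v, v ∈ L (z b) ↔
    (v.1 = (0, 0) ∨ v.1 = (1, 0) ∨ v.1 = (2, 0)) ∧ v.2 = b
  np : ∀ p p', (p = 1 ∧ p' = 2 ∨ p = 2 ∧ p' = 1) → ∀ b b', 1 ≤ b → b < b' → b' ≤ n →
    c (0, 0) n ∈ M.closure ({z b, z b'} ∪ c (0, 0) '' Ico b n ∪ c (p, 0) '' Ico b n ∪
      c (p', 0) '' Ico b (n + 1))

variable {M : Matroid α} [M.Finite] {L : α → Set ((ℕ × ℕ) × ℕ)} {n m : ℕ} {c t : ℕ × ℕ → ℕ → α}
  {z : ℕ → α}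

/-- rows of the wires in the middle of a pass, wires `i < v` of the target page already shifted -/
def f1 (m p p' u v : ℕ) (i : ℕ) : ℕ × ℕ :=
  if i = m then (0, 0) else if i < u then (if i < v then (p', u - i) else (p', u - 1 - i))
  else (p, i - u)

/-- after the gate: wires `i < v` of the source page already shifted -/
def f2 (m p p' u v : ℕ) (i : ℕ) : ℕ × ℕ :=
  if i = m then (0, 0) else if i ≤ u then (p', u - i)
  else (if i < v then (p, i - u - 1) else (p, i - u))

lemma BookSys.moveB (h : BookSys M L n m c t z) {τ : ℕ} {W : Finset ℕ} {f : ℕ → ℕ × ℕ}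
    {E : Finset ℕ → ℕ} (hs : St M L n (BR m : Finset (ℕ × ℕ)) c τ W f E) (hτ : τ + 1 < n) {j : ℕ}
    (hj : j ∈ W) {p i i' : ℕ} (hp : p = 1 ∨ p = 2) (hfj : f j = (p, i))
    (hi : i' = i + 1 ∨ i = i' + 1) (him : i < m) (him' : i' < m) (hx : ∀ j ∈ W, f j ≠ (p, i')) :
    St M L n (BR m : Finset (ℕ × ℕ)) c (τ + 1) W (Function.update f j (p, i')) E := by
  have hx' : (p, i') ∈ ((BR m : Finset (ℕ × ℕ)) : Set (ℕ × ℕ)) := by
    rw [mem_BR]; exact Or.inr ⟨hp, him'⟩
  rcases hi with rfl | rfl
  · refine hs.move h.row hτ hj hx' hx (t := t (p, i) (τ + 1))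
      (h.tE p hp i (by omega) _ (by omega) (by omega)) ?_
    intro v
    rw [h.tL p hp i (by omega) _ (by omega) (by omega), hfj]
    tauto
  · refine hs.move h.row hτ hj hx' hx (t := t (p, i') (τ + 1))
      (h.tE p hp i' (by omega) _ (by omega) (by omega)) ?_
    intro v
    rw [h.tL p hp i' (by omega) _ (by omega) (by omega), hfj]

lemma BookSys.down (h : BookSys M L n m c t z) {τ p p' u : ℕ} (hp : p = 1 ∧ p' = 2 ∨ p = 2 ∧ p' = 1)
    (hu : u < m) {E : Finset ℕ → ℕ} :
    ∀ v, v ≤ u → τ + v < n →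
    St M L n (BR m : Finset (ℕ × ℕ)) c τ (Finset.range (m + 1)) (f1 m p p' u 0) E →
    St M L n (BR m : Finset (ℕ × ℕ)) c (τ + v) (Finset.range (m + 1)) (f1 m p p' u v) E := by
  intro v
  induction v with
  | zero => intro _ _ h1; exact h1
  | succ v ih =>
    intro hv hτ h1
    have h2 := ih (by omega) (by omega) h1
    have h3 := h.moveB h2 (j := v) (p := p') (i := u - 1 - v) (i' := u - v) (by omega)
      (by simp; omega) (by omega) (by
        rw [f1, if_neg (by omega), if_pos (by omega), if_neg (by omega)]) (by omega) (by omega)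
      (by omega) (by
        intro j hj
        rw [Finset.mem_range] at hj
        rw [f1]
        split_ifs <;> simp only [ne_eq, Prod.mk.injEq] <;> omega)
    refine h3.congr ?_ (fun _ _ => rfl)
    intro j hj
    by_cases hjv : j = v
    · subst hjv
      rw [Function.update_self, f1, if_neg (by omega), if_pos (by omega), if_pos (by omega)]
    · rw [Function.update_of_ne hjv, f1, f1]
      split_ifs <;> first | rfl | (exfalso; omega)

lemma BookSys.up (h : BookSys M L n m c t z) {τ p p' u : ℕ} (hp : p = 1 ∧ p' = 2 ∨ p = 2 ∧ p' = 1)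
    (hu : u < m) {E : Finset ℕ → ℕ} :
    ∀ v, u + 1 + v ≤ m → τ + v < n →
    St M L n (BR m : Finset (ℕ × ℕ)) c τ (Finset.range (m + 1)) (f2 m p p' u (u + 1)) E →
    St M L n (BR m : Finset (ℕ × ℕ)) c (τ + v) (Finset.range (m + 1)) (f2 m p p' u (u + 1 + v)) E := by
  intro v
  induction v with
  | zero => intro _ _ h1; exact h1
  | succ v ih =>
    intro hv hτ h1
    have h2 := ih (by omega) (by omega) h1
    have h3 := h.moveB h2 (j := u + 1 + v) (p := p) (i := v + 1) (i' := v) (by omega)
      (by simp; omega) (by omega) (by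
        rw [f2, if_neg (by omega), if_neg (by omega), if_neg (by omega)]
        simp only [Prod.mk.injEq, true_and]
        omega) (by omega) (by omega)
      (by omega) (by
        intro j hj
        rw [Finset.mem_range] at hj
        rw [f2]
        split_ifs <;> simp only [ne_eq, Prod.mk.injEq] <;> omega)
    refine h3.congr ?_ (fun _ _ => rfl)
    intro j hj
    by_cases hjv : j = u + 1 + v
    · subst hjv
      rw [Function.update_self, f2, if_neg (by omega), if_neg (by omega), if_pos (by omega)]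
      simp only [Prod.mk.injEq, true_and]
      omega
    · rw [Function.update_of_ne hjv, f2, f2]
      split_ifs <;> first | rfl | (exfalso; omega)

/-- The invariant. -/
def Inv (M : Matroid α) (L : α → Set ((ℕ × ℕ) × ℕ)) (n m : ℕ) (c : ℕ × ℕ → ℕ → α)
    (τ p p' u r : ℕ) : Prop :=
  ∃ E, St M L n (BR m : Finset (ℕ × ℕ)) c τ (Finset.range (m + 1)) (f1 m p p' u 0) E ∧
    (∀ J ⊆ Finset.range m, J.card + 1 = r → E (insert m J) = 0) ∧
    (∀ J ⊆ Finset.range u, J.card = r → E J = 0) ∧ m + 1 ≤ E (insert m (Finset.range m)) + r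

lemma BookSys.step (h : BookSys M L n m c t z) {τ p p' u r N : ℕ}
    (hp : p = 1 ∧ p' = 2 ∨ p = 2 ∧ p' = 1) (hu : u < m) (hN : 2 ^ (m + 1) < N)
    (hτ : τ + N + m < n) (hi : Inv M L n m c τ p p' u r) :
    Inv M L n m c (τ + (N + m - 1)) p p' (u + 1) r := by
  obtain ⟨E, hs, h1, h2, h3⟩ := hi
  have hs1 := h.down hp hu u le_rfl (by omega) hs
  obtain ⟨E', hs2, hE1, hE2⟩ := hs1.gate h.row (N := N) (a := m) (q := u) (x := (p', 0)) (z := z)
    (by rw [Finset.card_range]; exact hN) (by omega) (by simp) (by simp; omega) (by omega)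
    (by rw [mem_BR]; exact Or.inr ⟨by omega, by simp only; omega⟩)
    (by
      intro j hj
      rw [Finset.mem_range] at hj
      rw [f1]
      split_ifs <;> simp only [ne_eq, Prod.mk.injEq] <;> omega)
    (fun b hb hbn => h.zE b hb hbn)
    (by
      intro b hb hbn v
      rw [h.zL b hb hbn]
      rw [show f1 m p p' u u m = (0, 0) by rw [f1, if_pos rfl],
        show f1 m p p' u u u = (p, 0) by
          rw [f1, if_neg (by omega), if_neg (by omega), Nat.sub_self]]
      rcases hp with ⟨rfl, rfl⟩ | ⟨rfl, rfl⟩ <;> tauto)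
    (by
      intro b b' hb hbb hbn
      rw [show f1 m p p' u u m = (0, 0) by rw [f1, if_pos rfl],
        show f1 m p p' u u u = (p, 0) by
          rw [f1, if_neg (by omega), if_neg (by omega), Nat.sub_self]]
      exact h.np p p' hp b b' hb hbb hbn)
  have hs3 : St M L n (BR m : Finset (ℕ × ℕ)) c (τ + u + N) (Finset.range (m + 1))
      (f2 m p p' u (u + 1)) E' := by
    refine hs2.congr ?_ (fun _ _ => rfl)
    intro j hj
    rw [Finset.mem_range] at hj
    by_cases hju : j = u
    · subst hju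
      rw [Function.update_self, f2, if_neg (by omega), if_pos le_rfl, Nat.sub_self]
    · rw [Function.update_of_ne hju, f1, f2]
      split_ifs <;> first | rfl | (exfalso; omega)
  have hs4 := h.up hp hu (m - (u + 1)) (by omega) (by omega) hs3
  refine ⟨E', ?_, ?_, ?_, ?_⟩
  · have e1 : τ + u + N + (m - (u + 1)) = τ + (N + m - 1) := by omega
    rw [e1] at hs4
    refine hs4.congr ?_ (fun _ _ => rfl)
    intro j hj
    rw [Finset.mem_range] at hj
    rw [f1, f2]
    split_ifs <;> first | rfl | (exfalso; omega) | (simp only [Prod.mk.injEq, true_and]; omega)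
  · intro J hJ hc
    rw [hE1 _ ?_ (Or.inr (Finset.mem_insert_self _ _))]
    · exact h1 J hJ hc
    · refine Finset.insert_subset (by simp) (hJ.trans ?_)
      intro x hx
      rw [Finset.mem_range] at hx ⊢
      omega
  · intro J hJ hc
    have hJ' : J ⊆ Finset.range (m + 1) := by
      intro x hx
      have := hJ hx
      rw [Finset.mem_range] at this ⊢
      omega
    by_cases huJ : u ∈ J
    · refine hE2 J hJ' huJ ?_ ?_
      · intro h4
        have := hJ h4
        rw [Finset.mem_range] at this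
        omega
      · refine h1 _ ?_ ?_
        · intro x hx
          have := hJ (Finset.mem_of_mem_erase hx)
          rw [Finset.mem_range] at this ⊢
          omega
        · rw [Finset.card_erase_of_mem huJ]
          have : 0 < J.card := Finset.card_pos.2 ⟨u, huJ⟩
          omega
    · rw [hE1 J hJ' (Or.inl huJ)]
      refine h2 J ?_ hc
      intro x hx
      have := hJ hx
      rw [Finset.mem_range] at this ⊢
      have : x ≠ u := fun h5 => huJ (h5 ▸ hx)
      omega
  · rw [hE1 _ ?_ (Or.inr (Finset.mem_insert_self _ _))]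
    · exact h3
    · refine Finset.insert_subset (by simp) ?_
      intro x hx
      rw [Finset.mem_range] at hx ⊢
      omega

lemma BookSys.pass (h : BookSys M L n m c t z) {τ p p' r N : ℕ}
    (hp : p = 1 ∧ p' = 2 ∨ p = 2 ∧ p' = 1) (hN : 2 ^ (m + 1) < N) :
    ∀ u, u ≤ m → τ + u * (N + m) + 1 < n → Inv M L n m c τ p p' 0 r →
      ∃ τ' ≤ τ + u * (N + m), Inv M L n m c τ' p p' u r := by
  intro u
  induction u with
  | zero => intro _ _ h1; exact ⟨τ, by omega, h1⟩
  | succ u ih =>
    intro hu hτ h1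
    rw [Nat.succ_mul] at hτ
    obtain ⟨τ', hτ', h2⟩ := ih (by omega) (by omega) h1
    refine ⟨_, ?_, h.step hp (by omega) hN (by omega) h2⟩
    rw [Nat.succ_mul]
    omega

lemma St.reindex {R ι : Type*} [DecidableEq ι] {L : α → Set (R × ℕ)} {rows : Set R}
    {c : R → ℕ → α} {τ : ℕ} {W : Finset ι} {f : ι → R} {E : Finset ι → ℕ}
    (h : St M L n rows c τ W f E) (σ : ι → ι) (hσ : ∀ i ∈ W, σ i ∈ W) (hσi : InjOn σ W) :
    St M L n rows c τ W (fun i => f (σ i)) (fun J => E (J.image σ)) where
  one := h.one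
  lt := h.lt
  inj := fun i hi k hk hik => hσi hi hk (h.inj (hσ i hi) (hσ k hk) hik)
  mem := fun j hj => h.mem _ (hσ j hj)
  ex := by
    obtain ⟨G, hG, hL, hn⟩ := h.ex
    refine ⟨G, hG, hL, fun J hJ => ?_⟩
    have h1 : J.image σ ⊆ W := by
      intro x hx
      obtain ⟨y, hy, rfl⟩ := Finset.mem_image.1 hx
      exact hσ y (hJ hy)
    rw [← hn _ h1]
    have : Om c n (fun i => f (σ i)) J = Om c n f (J.image σ) := by
      ext e
      rw [mem_Om, mem_Om]
      constructor
      · rintro ⟨i, hi, rfl⟩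
        exact ⟨σ i, Finset.mem_image_of_mem _ hi, rfl⟩
      · rintro ⟨i, hi, rfl⟩
        obtain ⟨y, hy, rfl⟩ := Finset.mem_image.1 hi
        exact ⟨y, hy, rfl⟩
    rw [this]

/-- From the end of a pass to the beginning of the next one. -/
lemma BookSys.turn (h : BookSys M L n m c t z) {τ p p' r : ℕ}
    (hp : p = 1 ∧ p' = 2 ∨ p = 2 ∧ p' = 1) (hτ : τ + 1 < n) (hi : Inv M L n m c τ p p' m r) :
    Inv M L n m c (τ + 1) p' p 0 (r + 1) := by
  obtain ⟨E, hs, h1, h2, h3⟩ := hi
  have hins : insert m (Finset.range m) = Finset.range (m + 1) := by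
    rw [Finset.range_add_one]
  have hle := hs.insert_le h.row (j := m) (J := Finset.range m) (by rw [hins])
  have hs1 := hs.mono (W' := Finset.range m) (by
    intro x hx
    rw [Finset.mem_range] at hx ⊢
    omega)
  have hs2 := hs1.reindex (fun i => m - 1 - i) (by
    intro i hi
    rw [Finset.mem_range] at hi ⊢
    omega) (by
    intro i hi k hk hik
    rw [Finset.mem_coe, Finset.mem_range] at hi hk
    simp only at hik
    omega)
  have himg : ∀ J ⊆ Finset.range m, (J.image fun i => m - 1 - i).card = J.card := by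
    intro J hJ
    refine Finset.card_image_of_injOn ?_
    intro i hi k hk hik
    have hi' := hJ hi
    have hk' := hJ hk
    rw [Finset.mem_range] at hi' hk'
    simp only at hik
    omega
  have himg2 : ∀ J ⊆ Finset.range m, (J.image fun i => m - 1 - i) ⊆ Finset.range m := by
    intro J hJ x hx
    obtain ⟨y, hy, rfl⟩ := Finset.mem_image.1 hx
    have := hJ hy
    rw [Finset.mem_range] at this ⊢
    omega
  have himg3 : (Finset.range m).image (fun i => m - 1 - i) = Finset.range m :=
    Finset.eq_of_subset_of_card_le (himg2 _ Finset.Subset.rfl) (himg _ Finset.Subset.rfl).ge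
  have hs3 := hs2.birth h.row hτ (w := m) (x := (0, 0)) (by simp) (by rw [mem_BR]; exact Or.inl rfl)
    (by
      intro j hj
      rw [Finset.mem_range] at hj
      rw [f1, if_neg (by omega), if_pos (by omega), if_neg (by omega)]
      simp only [ne_eq, Prod.mk.injEq]
      omega)
  have hmem : ∀ J ⊆ Finset.range m, m ∉ J := by
    intro J hJ h4
    have := hJ h4
    rw [Finset.mem_range] at this
    omega
  refine ⟨fun J => E ((J.erase m).image fun i => m - 1 - i), ?_, ?_, ?_, ?_⟩
  · rw [hins] at hs3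
    refine hs3.congr ?_ (fun _ _ => rfl)
    intro j hj
    rw [Finset.mem_range] at hj
    by_cases hjm : j = m
    · subst hjm
      rw [Function.update_self, f1, if_pos rfl]
    · rw [Function.update_of_ne hjm, f1, if_neg (by omega), if_pos (by omega), if_neg (by omega),
        f1, if_neg hjm, if_neg (by omega)]
      simp only [Prod.mk.injEq, true_and]
      omega
  · intro J hJ hc
    simp only
    rw [Finset.erase_insert (hmem J hJ)]
    refine h2 _ (himg2 J hJ) ?_
    rw [himg J hJ]
    omega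
  · intro J hJ hc
    rw [Finset.range_zero, Finset.subset_empty] at hJ
    rw [hJ, Finset.card_empty] at hc
    omega
  · simp only
    rw [Finset.erase_insert (by simp), himg3]
    omega

end Book
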