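import Pool.Agent.Helper45.Book.Conn

/-!
# States

A state at time `τ`: a set `G` of contracted elements located in the windows `≤ τ`, and wires
`j ∈ W` which at time `τ` are carried by the rows `f j`. `E J` is the nullity of the wires in `J`.
-/

set_option linter.unusedSectionVars false

open Set

namespace Book

open BIC

variable {α R ι : Type*} {M : Matroid α} [M.Finite] {L : α → Set (R × ℕ)} {n : ℕ} {rows : Set R}
  {c : R → ℕ → α}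

/-- all elements `c ρ b`, `τ ≤ b < n`, of the rows `ρ ∈ X` -/
def TT (c : R → ℕ → α) (n : ℕ) (X : Set R) (τ : ℕ) : Set α := ⋃ ρ ∈ X, c ρ '' Ico τ n

/-- the representatives of the wires -/
def Om (c : R → ℕ → α) (n : ℕ) (f : ι → R) (J : Finset ι) : Set α := (fun j => c (f j) n) '' (J : Set ι)

/-- The state. -/
structure St (M : Matroid α) (L : α → Set (R × ℕ)) (n : ℕ) (rows : Set R) (c : R → ℕ → α)
    (τ : ℕ) (W : Finset ι) (f : ι → R) (E : Finset ι → ℕ) : Prop where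
  one : 1 ≤ τ
  lt : τ < n
  inj : InjOn f W
  mem : ∀ j ∈ W, f j ∈ rows
  ex : ∃ G ⊆ M.E, (∀ e ∈ G, ∀ v ∈ L e, v.2 ≤ τ) ∧
    ∀ J ⊆ W, nul M (G ∪ TT c n rows τ ∪ Om c n f J) = E J

lemma mem_TT {X : Set R} {τ : ℕ} {e : α} :
    e ∈ TT c n X τ ↔ ∃ ρ ∈ X, ∃ b, τ ≤ b ∧ b < n ∧ e = c ρ b := by
  simp only [TT, mem_iUnion₂, mem_image, mem_Ico]
  constructor
  · rintro ⟨ρ, hρ, b, hb, rfl⟩
    exact ⟨ρ, hρ, b, hb.1, hb.2, rfl⟩
  · rintro ⟨ρ, hρ, b, h1, h2, rfl⟩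
    exact ⟨ρ, hρ, b, ⟨h1, h2⟩, rfl⟩

lemma mem_Om {f : ι → R} {J : Finset ι} {e : α} : e ∈ Om c n f J ↔ ∃ j ∈ J, e = c (f j) n := by
  simp only [Om, mem_image, Finset.mem_coe]
  constructor
  · rintro ⟨j, hj, rfl⟩
    exact ⟨j, hj, rfl⟩
  · rintro ⟨j, hj, rfl⟩
    exact ⟨j, hj, rfl⟩

/-- The base set without the row `x`. -/
def Bx (c : R → ℕ → α) (n : ℕ) (rows : Set R) (G : Set α) (x : R) (τ : ℕ) (f : ι → R)
    (J : Finset ι) : Set α := G ∪ TT c n (rows \ {x}) τ ∪ Om c n f J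

namespace Rowed

variable (h : Rowed M L n rows c)
include h

lemma Bx_sub {G : Set α} (hG : G ⊆ M.E) {x : R} {τ : ℕ} {f : ι → R} {J : Finset ι}
    (hJ : ∀ j ∈ J, f j ∈ rows) : Bx c n rows G x τ f J ⊆ M.E := by
  rintro e ((he | he) | he)
  · exact hG he
  · obtain ⟨ρ, hρ, b, _, hb, rfl⟩ := mem_TT.1 he
    exact h.cE ρ hρ.1 b (by omega)
  · obtain ⟨j, hj, rfl⟩ := mem_Om.1 he
    exact h.cE _ (hJ j hj) n le_rfl

lemma Bx_fresh {G : Set α} {x : R} {τ : ℕ} {f : ι → R} {J : Finset ι}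
    (hG : ∀ e ∈ G, ∀ v ∈ L e, v.2 ≤ τ) (hJ : ∀ j ∈ J, f j ∈ rows) (hx : ∀ j ∈ J, f j ≠ x) :
    ∀ e ∈ Bx c n rows G x τ f J, ∀ b, τ < b → (x, b) ∉ L e := by
  rintro e ((he | he) | he) b hb h1
  · have := hG e he _ h1
    simp only at this
    omega
  · obtain ⟨ρ, hρ, b', _, hb', rfl⟩ := mem_TT.1 he
    rw [h.cL ρ hρ.1 b' (by omega)] at h1
    exact hρ.2 h1.1.symm
  · obtain ⟨j, hj, rfl⟩ := mem_Om.1 he
    rw [h.cL _ (hJ j hj) n le_rfl] at h1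
    exact hx j hj h1.1.symm

omit h in
lemma split_row {G : Set α} {x : R} (hx : x ∈ rows) {τ : ℕ} {f : ι → R} {J : Finset ι} :
    G ∪ TT c n rows τ ∪ Om c n f J = Bx c n rows G x τ f J ∪ c x '' Ico τ n := by
  have : TT c n rows τ = TT c n (rows \ {x}) τ ∪ c x '' Ico τ n := by
    ext e
    rw [mem_union, mem_TT, mem_TT]
    constructor
    · rintro ⟨ρ, hρ, b, h1, h2, rfl⟩
      by_cases hρx : ρ = x
      · right
        rw [hρx]
        exact ⟨b, ⟨h1, h2⟩, rfl⟩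
      · left
        exact ⟨ρ, ⟨hρ, hρx⟩, b, h1, h2, rfl⟩
    · rintro (⟨ρ, hρ, b, h1, h2, rfl⟩ | ⟨b, hb, rfl⟩)
      · exact ⟨ρ, hρ.1, b, h1, h2, rfl⟩
      · exact ⟨x, hx, b, hb.1, hb.2, rfl⟩
  rw [this, Bx]
  ext e
  simp only [mem_union]
  tauto

lemma nul_Bx {G : Set α} (hGE : G ⊆ M.E) {x : R} (hx : x ∈ rows) {τ : ℕ} {f : ι → R}
    {J : Finset ι} (hG : ∀ e ∈ G, ∀ v ∈ L e, v.2 ≤ τ) (hJ : ∀ j ∈ J, f j ∈ rows)
    (hxJ : ∀ j ∈ J, f j ≠ x) :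
    nul M (G ∪ TT c n rows τ ∪ Om c n f J) = nul M (Bx c n rows G x τ f J) := by
  rw [split_row hx, h.rowF hx (h.Bx_sub hGE hJ) n le_rfl]
  intro e he b hb _
  exact h.Bx_fresh hG hJ hxJ e he b hb

/-- the new contracted set -/
def Gx (c : R → ℕ → α) (rows : Set R) (G : Set α) (x : R) (τ b τ' : ℕ) : Set α :=
  G ∪ (⋃ ρ ∈ rows \ {x}, c ρ '' Ico τ τ') ∪ c x '' Ico b τ'

omit h in
lemma mem_Gx {G : Set α} {x : R} {τ b τ' : ℕ} {e : α} : e ∈ Gx c rows G x τ b τ' ↔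
    e ∈ G ∨ (∃ ρ ∈ rows \ {x}, ∃ b, τ ≤ b ∧ b < τ' ∧ e = c ρ b) ∨
      ∃ b', b ≤ b' ∧ b' < τ' ∧ e = c x b' := by
  simp only [Gx, mem_union, mem_iUnion₂, mem_image, mem_Ico]
  constructor
  · rintro ((h1 | ⟨ρ, hρ, b, hb, rfl⟩) | ⟨b', hb', rfl⟩)
    · exact Or.inl h1
    · exact Or.inr (Or.inl ⟨ρ, hρ, b, hb.1, hb.2, rfl⟩)
    · exact Or.inr (Or.inr ⟨b', hb'.1, hb'.2, rfl⟩)
  · rintro (h1 | ⟨ρ, hρ, b, h1, h2, rfl⟩ | ⟨b', h1, h2, rfl⟩)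
    · exact Or.inl (Or.inl h1)
    · exact Or.inl (Or.inr ⟨ρ, hρ, b, ⟨h1, h2⟩, rfl⟩)
    · exact Or.inr ⟨b', ⟨h1, h2⟩, rfl⟩

lemma Gx_sub {G : Set α} (hG : G ⊆ M.E) {x : R} (hx : x ∈ rows) {τ b τ' : ℕ} (hτ : τ' ≤ n) :
    Gx c rows G x τ b τ' ⊆ M.E := by
  intro e he
  rcases mem_Gx.1 he with h1 | ⟨ρ, hρ, b, h1, h2, rfl⟩ | ⟨b', h1, h2, rfl⟩
  · exact hG h1
  · exact h.cE ρ hρ.1 _ (by omega)
  · exact h.cE x hx _ (by omega)

lemma Gx_legs {G : Set α} {x : R} (hx : x ∈ rows)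
    {τ b τ' : ℕ} (hτ : τ ≤ τ') (hτn : τ' ≤ n) (hG : ∀ e ∈ G, ∀ v ∈ L e, v.2 ≤ τ) :
    ∀ e ∈ Gx c rows G x τ b τ', ∀ v ∈ L e, v.2 ≤ τ' := by
  intro e he v hv
  rcases mem_Gx.1 he with h1 | ⟨ρ, hρ, b, h1, h2, rfl⟩ | ⟨b', h1, h2, rfl⟩
  · exact (hG e h1 v hv).trans hτ
  · rw [h.cL ρ hρ.1 _ (by omega)] at hv
    obtain ⟨_, h3⟩ := hv
    omega
  · rw [h.cL x hx _ (by omega)] at hv
    obtain ⟨_, h3⟩ := hv
    omega

omit h in
lemma Gx_TT {G : Set α} {x : R} (hx : x ∈ rows) {τ b τ' : ℕ} (h1 : τ ≤ τ') (h2 : τ' ≤ n)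
    (hb : b ≤ τ') {f : ι → R} {J : Finset ι} :
    Gx c rows G x τ b τ' ∪ TT c n rows τ' ∪ Om c n f J =
      Bx c n rows G x τ f J ∪ c x '' Ico b n := by
  ext e
  simp only [mem_union, Bx, mem_TT, mem_Gx, mem_image, mem_Ico]
  constructor
  · rintro (((h3 | ⟨ρ, hρ, b', h3, h4, rfl⟩ | ⟨b', h3, h4, rfl⟩) | ⟨ρ, hρ, b', h3, h4, rfl⟩) | h3)
    · exact Or.inl (Or.inl (Or.inl h3))
    · exact Or.inl (Or.inl (Or.inr ⟨ρ, hρ, b', h3, by omega, rfl⟩))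
    · exact Or.inr ⟨b', ⟨h3, by omega⟩, rfl⟩
    · by_cases hρx : ρ = x
      · subst hρx
        exact Or.inr ⟨b', ⟨by omega, h4⟩, rfl⟩
      · exact Or.inl (Or.inl (Or.inr ⟨ρ, ⟨hρ, hρx⟩, b', by omega, h4, rfl⟩))
    · exact Or.inl (Or.inr h3)
  · rintro (((h3 | ⟨ρ, hρ, b', h3, h4, rfl⟩) | h3) | ⟨b', ⟨h3, h4⟩, rfl⟩)
    · exact Or.inl (Or.inl (Or.inl h3))
    · by_cases h5 : b' < τ'
      · exact Or.inl (Or.inl (Or.inr (Or.inl ⟨ρ, hρ, b', h3, h5, rfl⟩)))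
      · exact Or.inl (Or.inr ⟨ρ, hρ.1, b', by omega, h4, rfl⟩)
    · exact Or.inr h3
    · by_cases h5 : b' < τ'
      · exact Or.inl (Or.inl (Or.inr (Or.inr ⟨b', h3, h5, rfl⟩)))
      · exact Or.inl (Or.inr ⟨x, hx, b', by omega, h4, rfl⟩)

/-- (a1): the new wire is not used. -/
lemma a1 {G : Set α} (hGE : G ⊆ M.E) {x : R} (hx : x ∈ rows) {τ b : ℕ} {f : ι → R}
    {J : Finset ι} (hG : ∀ e ∈ G, ∀ v ∈ L e, v.2 ≤ τ) (hJ : ∀ j ∈ J, f j ∈ rows)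
    (hxJ : ∀ j ∈ J, f j ≠ x) (hb : τ < b) {e : α} (he : e ∈ M.E) (hL : ∀ v ∈ L e, v.2 = b)
    (hxe : (x, b) ∈ L e) :
    nul M (insert e (Bx c n rows G x τ f J ∪ c x '' Ico b n)) =
      nul M (Bx c n rows G x τ f J) := by
  have hB := h.Bx_sub hGE (x := x) (τ := τ) hJ
  have hf := h.Bx_fresh hG hJ hxJ
  rw [← insert_union, h.rowF hx (insert_subset he hB) n le_rfl,
    h.loc.nul_fresh hB he hxe (fun y hy => hf y hy b hb)]
  rintro y (rfl | hy) b' h1 _ h2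
  · have := hL _ h2
    simp only at this
    omega
  · exact hf y hy b' (by omega) h2

/-- (a2): the new wire replaces the wire `q`. -/
lemma a2 [DecidableEq R] [DecidableEq ι] {G : Set α} (hGE : G ⊆ M.E) {x : R} (hx : x ∈ rows)
    {τ b : ℕ} (hτ : 1 ≤ τ) (hτn : τ < n) {f : ι → R} {J : Finset ι} {q : ι} (hq : q ∉ J)
    (hG : ∀ e ∈ G, ∀ v ∈ L e, v.2 ≤ τ) (hJ : ∀ j ∈ insert q J, f j ∈ rows)
    (hinj : InjOn f (insert q J : Finset ι))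
    (hxJ : ∀ j ∈ insert q J, f j ≠ x) (hb : τ < b) (hbn : b ≤ n) {e : α} (he : e ∈ M.E)
    {K : Finset R} (hL : ∀ v, v ∈ L e ↔ v.1 ∈ K ∧ v.2 = b) (hxK : x ∈ K) (hqK : f q ∈ K)
    (hK : ∀ κ ∈ K, κ = x ∨ ∃ j ∈ insert q J, f j = κ) :
    nul M (insert e (Bx c n rows G x τ f J ∪ c x '' Ico b (n + 1))) =
      nul M (Bx c n rows G x τ f (insert q J)) := by
  have hJ' : ∀ j ∈ J, f j ∈ rows := fun j hj => hJ j (Finset.mem_insert_of_mem hj)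
  have hxJ' : ∀ j ∈ J, f j ≠ x := fun j hj => hxJ j (Finset.mem_insert_of_mem hj)
  have hfq := hJ q (Finset.mem_insert_self _ _)
  have hqx := hxJ q (Finset.mem_insert_self _ _)
  have hKr : ∀ κ ∈ K, κ ∈ rows := by
    intro κ hκ
    rcases hK κ hκ with rfl | ⟨j, hj, rfl⟩
    · exact hx
    · exact hJ j hj
  have hB := h.Bx_sub hGE (x := x) (τ := τ) hJ
  have hB' := h.Bx_sub hGE (x := x) (τ := τ) hJ'
  have hrow := h.row_sub hx (a := b) (u := n + 1) le_rfl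
  have hxe : (x, b) ∈ L e := (hL _).2 ⟨hxK, rfl⟩
  have hqe : (f q, b) ∈ L e := (hL _).2 ⟨hqK, rfl⟩
  have hOm : Om c n f (insert q J) = insert (c (f q) n) (Om c n f J) := by
    simp only [Om, Finset.coe_insert, image_insert_eq]
  have h1 : nul M (Bx c n rows G x τ f (insert q J) ∪ c x '' Ico b (n + 1)) =
      nul M (Bx c n rows G x τ f (insert q J)) := by
    refine h.rowB hx hB le_rfl (n + 1) b (by omega) (by omega) ?_
    intro y hy b' h2 _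
    exact h.Bx_fresh hG hJ hxJ y hy b' (by omega)
  rw [← h1]
  refine nul_exch (t := e) (w := c (f q) n) (union_subset hB hrow)
    (insert_subset he (union_subset hB' hrow)) ?_ ?_ ?_ ?_ ?_
  · rintro (((h2 | h2) | h2) | ⟨b', hb', h2⟩)
    · have := hG e h2 _ hxe
      simp only at this
      omega
    · obtain ⟨ρ, hρ, b', _, hb', h3⟩ := mem_TT.1 h2
      exact h.conn_notMem hqx hxe hqe hρ.1 (by omega) h3
    · obtain ⟨j, hj, h3⟩ := mem_Om.1 h2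
      exact h.conn_notMem hqx hxe hqe (hJ j hj) le_rfl h3
    · rw [mem_Ico] at hb'
      exact h.conn_notMem hqx hxe hqe hx (by omega) h2.symm
  · rintro (h2 | (((h2 | h2) | h2) | ⟨b', hb', h2⟩))
    · exact h.conn_notMem hqx hxe hqe hfq le_rfl h2.symm
    · have := hG _ h2 (f q, n) (by
        rw [h.cL _ hfq n le_rfl]
        exact ⟨rfl, Or.inl ⟨rfl, by omega⟩⟩)
      simp only at this
      omega
    · obtain ⟨ρ, hρ, b', h4, hb', h3⟩ := mem_TT.1 h2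
      have := (h.c_inj hfq hρ.1 le_rfl (by omega) (by omega) (by omega) h3).2
      omega
    · obtain ⟨j, hj, h3⟩ := mem_Om.1 h2
      have := (h.c_inj hfq (hJ' j hj) le_rfl (by omega) (by omega) (by omega) h3).1
      have h5 := hinj (by simp) (by simp [hj]) this
      exact hq (h5 ▸ hj)
    · rw [mem_Ico] at hb'
      exact hqx (h.c_inj hx hfq (by omega) le_rfl (by omega) (by omega) h2).1.symm
  · rw [Bx, Bx, hOm]
    ext y
    simp only [mem_insert_iff, mem_union]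
    tauto
  · refine M.closure_subset_closure ?_ (h.conn_mem hKr (by omega : 1 ≤ b) hbn he
      (fun v hv => (hL v).1 hv))
    refine iUnion₂_subset ?_
    rintro κ hκ _ ⟨b', hb', rfl⟩
    rw [mem_Ico] at hb'
    rcases hK κ hκ with rfl | ⟨j, hj, rfl⟩
    · exact Or.inr ⟨b', ⟨by omega, by omega⟩, rfl⟩
    · left
      by_cases h2 : b' = n
      · right
        rw [h2]
        exact mem_Om.2 ⟨j, hj, rfl⟩
      · exact Or.inl (Or.inr (mem_TT.2 ⟨f j, ⟨hJ j hj, hxJ j hj⟩, b', by omega, by omega, rfl⟩))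
  · refine M.closure_subset_closure ?_ (h.conn_last hKr (by omega : 1 ≤ b) hbn he hL hqK hxK
      (Ne.symm hqx))
    rintro y ((rfl | hy) | ⟨b', hb', rfl⟩)
    · exact mem_insert _ _
    · right
      rw [mem_iUnion₂] at hy
      obtain ⟨κ, hκ, b', hb', rfl⟩ := hy
      rw [mem_Ico] at hb'
      rw [Finset.mem_erase] at hκ
      rcases hK κ hκ.2 with rfl | ⟨j, hj, rfl⟩
      · exact Or.inr ⟨b', ⟨by omega, by omega⟩, rfl⟩
      · left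
        by_cases h2 : b' = n
        · right
          rw [h2]
          refine mem_Om.2 ⟨j, ?_, rfl⟩
          rcases Finset.mem_insert.1 hj with rfl | hj
          · exact absurd rfl hκ.1
          · exact hj
        · exact Or.inl (Or.inr (mem_TT.2 ⟨f j, ⟨hJ j hj, hxJ j hj⟩, b', by omega, by omega, rfl⟩))
    · rw [mem_Ico] at hb'
      right
      left
      exact Or.inl (Or.inr (mem_TT.2 ⟨f q, ⟨hfq, hqx⟩, b', by omega, by omega, rfl⟩))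

end Rowed

end Book
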